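import Pool.Agent.Helper83.PT.St6
import Pool.Agent.Helper12.DC.M_G3

set_option autoImplicit false

/-! Project PT (helper83), MP_26f0da_lc: module W, the weights of the nodes. -/

namespace Pool.Agent.Helper83.PT.NW

open Pool.Agent.Helper73.DC
open Finset
open scoped Classical

theorem mnd_lt {α : Type} [Fintype α] (M : MPDA α) (T : MTab) (K : ℕ) (num : M.Q → List M.Γ → ℕ) (qn : M.Q → ℕ)
    (h : MDesc M T K num qn) (w : List α) (q : M.Q) (β : List M.Γ) (p : Fin M.k → ℕ) (hβ : β.length ≤ K)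
    (hp : ∀ j, p j ≤ w.length + 1) : mnd M num w.length q β p < T.ac w.length := by
  have hlt := Pool.Agent.Helper12.DC.g3_pcd_lt w.length p hp
  unfold mnd MTab.ac MTab.P
  rw [h.hk]
  calc num q β * (w.length + 2) ^ M.k + pcd w.length p
      < num q β * (w.length + 2) ^ M.k + (w.length + 2) ^ M.k := Nat.add_lt_add_left hlt _
    _ = (num q β + 1) * (w.length + 2) ^ M.k := by ring
    _ ≤ T.F * (w.length + 2) ^ M.k := Nat.mul_le_mul_right _ (h.hnum q β hβ)

theorem mnd_inj {α : Type} [Fintype α] (M : MPDA α) (T : MTab) (K : ℕ) (num : M.Q → List M.Γ → ℕ) (qn : M.Q → ℕ)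
    (h : MDesc M T K num qn) (w : List α) (q q' : M.Q) (β β' : List M.Γ) (p p' : Fin M.k → ℕ) (hβ : β.length ≤ K)
    (hβ' : β'.length ≤ K) (hp : ∀ j, p j ≤ w.length + 1) (hp' : ∀ j, p' j ≤ w.length + 1)
    (he : mnd M num w.length q β p = mnd M num w.length q' β' p') : q = q' ∧ β = β' ∧ p = p' := by
  have hlt := Pool.Agent.Helper12.DC.g3_pcd_lt w.length p hp
  have hlt' := Pool.Agent.Helper12.DC.g3_pcd_lt w.length p' hp'
  have hpos : 0 < (w.length + 2) ^ M.k := by positivity
  unfold mnd at he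
  have h1 : num q β = num q' β' := by
    have : (num q β * (w.length + 2) ^ M.k + pcd w.length p) / (w.length + 2) ^ M.k =
        (num q' β' * (w.length + 2) ^ M.k + pcd w.length p') / (w.length + 2) ^ M.k := by rw [he]
    rw [Nat.add_comm, Nat.add_mul_div_right _ _ hpos, Nat.div_eq_of_lt hlt, Nat.add_comm (num q' β' * _),
      Nat.add_mul_div_right _ _ hpos, Nat.div_eq_of_lt hlt'] at this
    omega
  have h2 : pcd w.length p = pcd w.length p' := by
    rw [h1] at he
    omega
  obtain ⟨a, b⟩ := h.inj q β q' β' hβ hβ' h1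
  refine ⟨a, b, ?_⟩
  funext j
  rw [← Pool.Agent.Helper12.DC.g3_dg w.length p hp j, h2, Pool.Agent.Helper12.DC.g3_dg w.length p' hp' j]

theorem mW : StG3 → StW := by
  intro _ α _ M T K num qn h w
  have lt := fun (q : M.Q) (u : Bool) (β : List M.Γ) (p : Fin M.k → ℕ) => mnd_lt (aug M) T K num qn h w (q, u) β p
  have inj := fun (q q' : M.Q) (u u' : Bool) (β β' : List M.Γ) (p p' : Fin M.k → ℕ) =>
    mnd_inj (aug M) T K num qn h w (q, u) (q', u') β β' p p'
  have zero : ∀ (q : M.Q) (u : Bool) (β : List M.Γ) (p : Fin M.k → ℕ), β.length ≤ K → (∀ j, p j ≤ w.length + 1) →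
      ¬ (¬ M.acc q ∧ ∃ (Z : M.Γ) (q' : M.Q) (d : Fin M.k → Mv) (γ : List M.Γ), β = [Z] ∧
        M.tr q Z (fun j => symAt w (p j)) = some (q', d, γ) ∧ tu γ u = 1) →
      wtT M T K num w (mnd (aug M) num w.length (q, u) β p) = 0 := by
    intro q u β p hβ hp hn
    unfold wtT
    rw [if_neg (ne_of_lt (lt q u β p hβ hp)), if_pos ⟨q, u, β, p, hβ, hp, rfl, hn⟩]
  refine ⟨?_, ?_, ?_, ?_, ?_⟩
  · unfold wtT
    rw [if_pos rfl]
  · intro q u β p hβ hp hc
    apply zero q u β p hβ hp
    rintro ⟨hna, Z, q', d, γ, hb, -, -⟩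
    rcases hc with hc | hc
    · exact hna hc
    · rw [hb] at hc
      exact hc rfl
  · intro q u Z p hp hna ht
    apply zero q u [Z] p h.hK hp
    rintro ⟨-, Z', q', d, γ, hb, ht', -⟩
    obtain rfl : Z = Z' := by simpa using hb
    rw [ht] at ht'
    exact absurd ht' (by simp)
  · intro q u Z p q' d γ hp hna ht
    by_cases htu : tu γ u = 1
    · have hne : mnd (aug M) num w.length (q, u) [Z] p ≠ T.ac w.length := ne_of_lt (lt q u [Z] p h.hK hp)
      unfold wtT
      rw [if_neg hne, if_neg, htu]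
      rintro ⟨q1, u1, β1, p1, hβ1, hp1, he, hn⟩
      obtain ⟨e1, e2, e3⟩ := inj q q1 u u1 [Z] β1 p p1 h.hK hβ1 hp hp1 he
      have e4 : q = q1 := congrArg Prod.fst e1
      have e5 : u = u1 := congrArg Prod.snd e1
      subst e4 e5 e2 e3
      exact hn ⟨hna, Z, q', d, γ, rfl, ht, htu⟩
    · have h0 : tu γ u = 0 := by
        unfold tu at htu ⊢
        split_ifs at htu ⊢
        · exact absurd rfl htu
        · rfl
      rw [h0]
      apply zero q u [Z] p h.hK hp
      rintro ⟨-, Z', q'', d', γ', hb, ht', htu'⟩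
      obtain rfl : Z = Z' := by simpa using hb
      rw [ht] at ht'
      have : γ = γ' := by
        have := Option.some.inj ht'
        exact congrArg (fun x => x.2.2) this
      rw [← this] at htu'
      exact htu htu'
  · intro x hx
    unfold wtT at hx
    split_ifs at hx with h1 h2
    · exact Or.inl h1
    · obtain ⟨q, u, β, p, hβ, hp, he, -⟩ := h2
      exact Or.inr ⟨q, u, β, p, hβ, hp, he⟩

end Pool.Agent.Helper83.PT.NW
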