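import Pool.Agent.Helper83.PT.St6

set_option autoImplicit false

/-! Project PT (helper83), MP_26f0da_lc: statements, second part: words accepted with few turns (no hypothesis on the language). -/

namespace Pool.Agent.Helper83.PT

open Pool.Agent.Helper73.DC
open Finset
open scoped Classical

/-- Accepted with exactly `t` turns from the state `q`, head positions `p` and the stack `z0`. -/
def AccFrom {α : Type} (M : MPDA α) (w : List α) (q : M.Q) (p : Fin M.k → ℕ) (t : ℕ) : Prop :=
  ∃ (u : Bool) (q' : M.Q) (p' : Fin M.k → ℕ) (s' : List M.Γ), M.acc q' ∧ TRun M w t (false, q, p, [M.z0]) (u, q', p', s')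

/-- MODULE G8 (hypotheses StABS, StG1, StG2, StG3, StG5 (of DC), StG6, StW, StG4 (of PT), StRK).  General start configurations.
Proof.  As G7 (template Helper24/PT/M_G7.lean), with the start node num (st n, false) [z0] * (n+2)^k + pcd n (p0 n) = mnd of ((st n, false), [z0], p0 n). -/
def StG8 : Prop :=
  ∀ {α : Type} [Fintype α] (M : MPDA α) (c : ℕ) (st : ℕ → M.Q) (p0 : ℕ → Fin M.k → ℕ),
    (∀ g : M.Q → ℕ, E2 (α := α) (fun w _ => g (st w.length))) → E2 (α := α) (fun w _ => pcd w.length (p0 w.length)) →
    (∀ n j, p0 n j ≤ n + 1) →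
    (∀ (w : List α) (t : ℕ), AccFrom M w (st w.length) (p0 w.length) t → t ≤ c * Nat.log 2 w.length ^ c + c) →
    {w : List α | ∃ t, AccFrom M w (st w.length) (p0 w.length) t} ∈ DSPACE (α := α) (fun n => Nat.log 2 n)

/-- One more component. -/
def exn {k : ℕ} {X : Type} (p : Fin k → X) (r : X) : Fin (k + 1) → X := fun i => if h : (i : ℕ) < k then p ⟨i, h⟩ else r

/-- The counting automaton: it simulates `M`, keeps the flag in its state and counts the turns with a number `j ≤ C0` in the state and
with one more head: at a turn `j` decreases by 1 if it is not 0, otherwise the last head moves left; if it is on the left end marker no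
move is possible. -/
def cnt {α : Type} (C0 : ℕ) (M : MPDA α) : MPDA α where
  k := M.k + 1
  Q := M.Q × Bool × Fin (C0 + 1)
  Γ := M.Γ
  finQ := by
    have := M.finQ
    infer_instance
  finΓ := M.finΓ
  q0 := (M.q0, false, 0)
  z0 := M.z0
  acc := fun q => M.acc q.1
  tr := fun q Z x =>
    match M.tr q.1 Z (fun j => x j.castSucc) with
    | none => none
    | some (q', d, γ) =>
      if tu γ q.2.1 = 0 then some ((q', fl γ q.2.1, q.2.2), exn d Mv.S, γ)
      else if q.2.2 ≠ 0 then some ((q', fl γ q.2.1, q.2.2 - 1), exn d Mv.S, γ)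
      else match x (Fin.last M.k) with
        | Sym.lm => none
        | _ => some ((q', fl γ q.2.1, q.2.2), exn d Mv.L, γ)

/-- MODULE CN1.  Runs of the counting automaton.
Proof.  Induction on the run of `cnt C0 M`.  One move of `cnt` from (u, (q, u, j), P, Z :: s): M.tr q Z (symbols at the restriction of P) = some (q', d, γ); the new
state is (q', fl γ u, j') with fl γ u the new flag; the positions of the first k heads are nps w d of the restriction; j' + (last position)' + tu γ u = j + last
position: for tu γ u = 0 nothing changes (the last head stays, it is ≤ |w| + 1); tu γ u = 1, j ≠ 0: j' = j - 1 (in Fin (C0 + 1), val (j - 1) = val j - 1); j = 0 and the last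
symbol is not lm, so the last position is not 0 (symAt w 0 = lm) and it decreases by 1.
The claim: flags of the states are the flags of the runs, and the sum t + j' + last' = j + last is kept. -/
def StCN1 : Prop :=
  ∀ {α : Type} (C0 : ℕ) (M : MPDA α) (w : List α) (t : ℕ) (u : Bool) (q : M.Q) (j : Fin (C0 + 1)) (P : Fin (M.k + 1) → ℕ) (s : List M.Γ)
    (u' : Bool) (Q' : M.Q × Bool × Fin (C0 + 1)) (P' : Fin (M.k + 1) → ℕ) (s' : List M.Γ),
    (∀ i, P i ≤ w.length + 1) →
    TRun (cnt C0 M) w t (u, (q, u, j), P, s) (u', Q', P', s') →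
      TRun M w t (u, q, (fun i => P i.castSucc), s) (u', Q'.1, (fun i => P' i.castSucc), s') ∧
      t + (Q'.2.2 : ℕ) + P' (Fin.last M.k) = j + P (Fin.last M.k)

/-- MODULE CN2.  Runs of `M` are simulated.
Proof.  Induction on the run of M, for all j, P: in the step case, tu γ u = 0: the move of cnt keeps j and the last position, tu γ u = 1: then t + 1 ≤ j + last, so j ≠ 0 or
the last position r is ≥ 1 and (r ≤ |w| + 1) symAt w r is not lm; the new sum is j + last - 1.  Positions: nps w (exn d m) P restricted is nps w d (P restricted). -/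
def StCN2 : Prop :=
  ∀ {α : Type} (C0 : ℕ) (M : MPDA α) (w : List α) (t : ℕ) (u : Bool) (q : M.Q) (p : Fin M.k → ℕ) (s : List M.Γ)
    (u' : Bool) (q' : M.Q) (p' : Fin M.k → ℕ) (s' : List M.Γ), TRun M w t (u, q, p, s) (u', q', p', s') →
    ∀ (j : Fin (C0 + 1)) (P : Fin (M.k + 1) → ℕ), (∀ i, P i ≤ w.length + 1) → (∀ i : Fin M.k, P i.castSucc = p i) → t ≤ j + P (Fin.last M.k) →
      ∃ (j' : Fin (C0 + 1)) (P' : Fin (M.k + 1) → ℕ), TRun (cnt C0 M) w t (u, (q, u, j), P, s) (u', (q', u', j'), P', s')

/-- MODULE AS.  Asymptotics.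
Proof.  (log n)^c = o(n): e.g. from `isLittleO_pow_log_id_atTop` (real logarithm) or elementary: 2^(log2 n) ≤ n and L^c ≤ C 2^L for all L (L^c / 2^L tends to 0). -/
def StAS : Prop := ∀ c : ℕ, ∃ C0 : ℕ, ∀ n : ℕ, c * Nat.log 2 n ^ c + c ≤ n + 1 + C0

/-- MODULE MT (hypotheses StG8, StCN1, StCN2, StAS, StL1 .. StL6).  Multihead automata, all words.
Proof.  T n = c (log n)^c + c, C0 from StAS; M' = cnt C0 M, st n = (q0, false, T n - (n+1)) (a number ≤ C0), p0 n = exn (fun _ => 0) (min (T n) (n+1)).  T n - (n+1) + min (T n) (n+1) =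
T n.  {w | ∃ t, AccFrom M' w (st n) (p0 n) t} = {w | AccTurns M w (T n)} by StCN1 (t ≤ T n, acc of the state is acc of its first component, p0 restricted = 0) and StCN2.  The bound t ≤ T n
is StCN1.  E2: T n (log: StL5, powers: `E2.powc`), g (st n): a finite table of T n - (n+1) < C0 + 1 (StL6), pcd n (p0 n) = min (T n) (n+1) * (n+2)^k (`Fin.sum_univ_castSucc`). -/
def StMT : Prop :=
  ∀ {α : Type} [Fintype α] (M : MPDA α) (c : ℕ),
    {w : List α | AccTurns M w (c * Nat.log 2 w.length ^ c + c)} ∈ DSPACE (α := α) (fun n => Nat.log 2 n)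

/-! ### One-way automata -/

/-- The one-head automaton simulating the (one-way) deterministic pushdown automaton `M`.  State ((q, none), e): state q, e = true if it is known that
the head is on the right end marker.  State ((q, some a), _): the letter a has been passed, the reading move of (q, a) is still to be done (so that
the new state knows whether the input is completely read). -/
noncomputable def mpd {α : Type} [Fintype α] (M : DPDA α) : MPDA α where
  k := 1
  Q := (M.Q × Option α) × Bool
  Γ := M.Γ
  finQ := by
    have := M.finQ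
    infer_instance
  finΓ := M.finΓ
  q0 := ((M.q0, none), false)
  z0 := M.z0
  acc := fun q => M.acc q.1.1 ∧ q.1.2 = none ∧ q.2 = true
  tr := fun q Z x =>
    match q.1.2 with
    | some a =>
      match M.tr q.1.1 Z a with
      | none => none
      | some (q', γ) => match x 0 with
        | Sym.rm => some (((q', none), true), fun _ => Mv.S, γ)
        | _ => some (((q', none), false), fun _ => Mv.S, γ)
    | none =>
      match x 0 with
      | Sym.lm => some (q, fun _ => Mv.R, [Z])
      | Sym.rm =>
        if q.2 = false then some ((q.1, true), fun _ => Mv.S, [Z])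
        else match M.ep q.1.1 Z with
          | none => none
          | some (q', γ) => some (((q', none), true), fun _ => Mv.S, γ)
      | Sym.ch a =>
        match M.ep q.1.1 Z with
        | some (q', γ) => some (((q', none), q.2), fun _ => Mv.S, γ)
        | none => match M.tr q.1.1 Z a with
          | none => none
          | some _ => some (((q.1.1, some a), false), fun _ => Mv.R, [Z])

/-- Configurations of `mpd M` and of `M` that belong together: `i` is the head position, `v` the rest of the input. -/
def Cor {α : Type} (w : List α) (o : Option α) (e : Bool) (i : ℕ) (v : List α) : Prop :=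
  match o with
  | none => v = w.drop (i - 1) ∧ i ≤ w.length + 1 ∧ (e = true → i = w.length + 1)
  | some a => v = a :: w.drop (i - 1) ∧ 2 ≤ i ∧ i ≤ w.length + 1 ∧ w[i - 2]? = some a

/-- MODULE DP1.  Runs of `mpd M` give runs of `M`.
Proof.  Induction on the run.  A move of `mpd M` from a configuration in the relation Cor leads to a configuration in the relation: intermediate state, move γ: the reading move of
M, the rest is w.drop (i-1), new e = true iff the symbol in cell i is rm iff i = |w| + 1 (2 ≤ i ≤ |w| + 1; symAt w i = ch w[i-1] for 1 ≤ i ≤ |w|).  Normal state on lm: i = 0, moves to 1,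
w.drop 0 in both cases, no change of the stack (fl [Z] u = u, tu [Z] u = 0).  On rm, e = false: i = |w| + 1 (i ≤ |w| + 1, and i = 0 shows lm), e := true.  On rm, e = true: ε-move.  On ch a
(1 ≤ i ≤ |w|, w[i-1]? = some a, w.drop (i-1) = a :: w.drop i): ε-move, or the head moves to i + 1 ≤ |w| + 1 and the state becomes intermediate. -/
def StDP1 : Prop :=
  ∀ {α : Type} [Fintype α] (M : DPDA α) (w : List α) (t : ℕ) (u : Bool) (q : M.Q) (o : Option α) (e : Bool) (p : Fin 1 → ℕ) (v : List α) (s : List M.Γ)
    (u' : Bool) (q' : M.Q) (o' : Option α) (e' : Bool) (p' : Fin 1 → ℕ) (s' : List M.Γ), Cor w o e (p 0) v →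
    TRun (mpd M) w t (u, ((q, o), e), p, s) (u', ((q', o'), e'), p', s') →
    ∃ v', Cor w o' e' (p' 0) v' ∧ DRun M t (u, q, v, s) (u', q', v', s')

/-- MODULE DP2.  Runs of `M` are simulated.
Proof.  Induction on the run of M: from (u, ((q, none), e), i, s) with 1 ≤ i, i ≤ |w| + 1, v = w.drop (i-1), e = true ↔ i = |w| + 1.  Reading move: v = a :: v', so 1 ≤ i ≤ |w|, w[i-1]? = some a, no ε-move
is possible (M.det), two moves of `mpd M`: head to i + 1, then γ, with new e = true iff i + 1 = |w| + 1.  ε-move: one move (on ch: e stays false; on rm: e = true).  At the end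
v' = [] means i = |w| + 1, so e = true. -/
def StDP2 : Prop :=
  ∀ {α : Type} [Fintype α] (M : DPDA α) (w : List α) (t : ℕ) (u : Bool) (q : M.Q) (v : List α) (s : List M.Γ)
    (u' : Bool) (q' : M.Q) (s' : List M.Γ), DRun M t (u, q, v, s) (u', q', [], s') →
    ∀ (e : Bool) (p : Fin 1 → ℕ), 1 ≤ p 0 → p 0 ≤ w.length + 1 → v = w.drop (p 0 - 1) → (e = true ↔ p 0 = w.length + 1) →
    ∃ p', TRun (mpd M) w t (u, ((q, none), e), p, s) (u', ((q', none), true), p', s')

/-- MODULE DT (hypotheses StMT, StDP1, StDP2).  One-way automata, all words.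
Proof.  AccTurns (mpd M) w t ↔ DAccTurns M w t.  → StDP1 from the start configuration (p = 0, v = w, `Cor w none false 0 w`); the accepting state has o' = none, e' = true, so p' 0 = |w| + 1 and
v' = w.drop |w| = [].  ←: first move: on lm the head moves to cell 1 (stack [z0], TRun.step with turns tu [z0] false = 0, flag fl [z0] false = false); if |w| ≥ 1 then StDP2 with e = false,
i = 1; if w = [] a second move on rm sets e = true, then StDP2.  Then StMT for mpd M. -/
def StDT : Prop :=
  ∀ {α : Type} [Fintype α] (M : DPDA α) (c : ℕ),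
    {w : List α | DAccTurns M w (c * Nat.log 2 w.length ^ c + c)} ∈ DSPACE (α := α) (fun n => Nat.log 2 n)

end Pool.Agent.Helper83.PT
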