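import Pool.Agent.Helper83.PT.Cm

/-! Project PT (helper83; ported from helper82, project DC; MP_26f0da_lc), module P1: walks. -/

set_option autoImplicit false

namespace Pool.Agent.Helper83.PT.N82

open Pool.Agent.Helper73.DC
open Finset
open scoped Classical

section
variable {α : Type} {cl : List α → ℕ → ℕ} {rs : List α → ℕ → ℕ → ℕ} {w : List α} {p f : ℕ → ℕ}
  {cb : ℕ → ℕ → ℕ × ℕ} {r : ℕ}

/-- One step of a walk. -/
theorem P1_step (hp : Prm cl rs w p) (ho : Orc p f cb) (l : ℕ → ℕ) (g : ℕ)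
    (hl : ∀ i, l i < p 0) (hg : g < p 1) (hc : l 22 + 1 < p 0) :
    ∃ l', sem w p 40 cb r (walkStep cl rs) (l, g) = (l', g) ∧ (∀ i, l' i < p 0) ∧
      (∀ i, i ∉ ({21, 22, 23, 24, 26, 27, 28, 29} : Finset ℕ) → l' i = l i) ∧
      (⟨l' 21, l' 22, l' 23, l' 24⟩ : WS) =
        wstep (cl w) (rs w) f (l 25) ⟨l 21, l 22, l 23, l 24⟩ := by
  have h2 : p 2 ≤ p 0 := (Prm_two_lt hp).le
  have h3 : p 3 < p 0 := by have := Prm_three_lt hp; omega
  set x := l 21 with hx
  set c := l 22 with hcd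
  set s := l 23 with hs
  set fr := l 24 with hfr
  set t := l 25 with ht
  have ha3 : cl w x < p 3 := hp.hcl x
  set a := cl w x with ha
  have hb2 : f a < p 0 := lt_of_lt_of_le (ho.1 a) h2
  set b := f a with hb
  have hd3 : rs w x (b - 1) < p 3 := hp.hrs x _
  set d := rs w x (b - 1) with hd
  have he2 : f d < p 0 := lt_of_lt_of_le (ho.1 d) h2
  set e := f d with he
  have ha0 : a < p 0 := lt_trans ha3 h3
  have hd0 : d < p 0 := lt_trans hd3 h3
  have hx0 : x < p 0 := hl 21
  have hs0 : s < p 0 := hl 23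
  have hfr0 : fr < p 0 := hl 24
  set v24 := if s = 0 ∧ b = 0 ∧ c + 1 = t then x else fr with h24
  set v22 := if s = 0 ∧ b = 0 then c + 1 else c with h22
  set v21 := if s = 0 ∧ b = 0 then a else if s = 0 ∧ e = 0 then d else x with h21
  set v23 := if s = 0 ∧ b ≠ 0 ∧ e ≠ 0 then e else s with h23
  have k24 : v24 < p 0 := by rw [h24]; split_ifs <;> assumption
  have k22 : v22 < p 0 := by rw [h22]; split_ifs <;> omega
  have k21 : v21 < p 0 := by rw [h21]; split_ifs <;> assumption
  have k23 : v23 < p 0 := by rw [h23]; split_ifs <;> assumption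
  refine ⟨Function.update (Function.update (Function.update (Function.update
    (Function.update (Function.update (Function.update (Function.update l 26 a) 27 b) 28 d) 29 e)
    24 v24) 22 v22) 21 v21) 23 v23, ?_, ?_, ?_, ?_⟩
  · rw [walkStep, sem_cons, sem_asg a (by simp [lo_ctx, ha, hx]) ha0,
      sem_cons, sem_call ho h2 hg b (by simp [hb]) (by simpa using ha3),
      sem_cons, sem_asg d (by simp [lo_ctx, Function.update_apply, hd, ← hx]) hd0,
      sem_cons, sem_call ho h2 hg e (by simp [he]) (by simpa using hd3),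
      sem_cons, sem_asg v24 (by simp [lo_ctx, Function.update_apply, h24, hs, hcd, ht, hx, hfr]) k24,
      sem_cons, sem_asg v22 (by simp [lo_ctx, Function.update_apply, h22, hs, hcd]) k22,
      sem_cons, sem_asg v21 (by simp [lo_ctx, Function.update_apply, h21, hs, hx]) k21,
      sem_cons, sem_asg v23 (by simp [lo_ctx, Function.update_apply, h23, hs]) k23, sem_nil]
  · exact upd_lt (upd_lt (upd_lt (upd_lt (upd_lt (upd_lt (upd_lt (upd_lt hl _ _ ha0) _ _ hb2)
      _ _ hd0) _ _ he2) _ _ k24) _ _ k22) _ _ k21) _ _ k23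
  · intro i hi
    simp only [Finset.mem_insert, Finset.mem_singleton, not_or] at hi
    obtain ⟨i1, i2, i3, i4, i5, i6, i7, i8⟩ := hi
    simp [Function.update_apply, i1, i2, i3, i4, i5, i6, i7, i8]
  · simp only [Function.update_apply]
    norm_num
    unfold wstep
    simp only [← ha, ← hb, ← hd, ← he]
    by_cases q1 : s = 0
    · by_cases q2 : b = 0
      · simp [q1, q2, h21, h22, h23, h24]
      · by_cases q3 : e = 0
        · simp [q1, q2, q3, h21, h22, h23, h24]
        · simp [q1, q2, q3, h21, h22, h23, h24]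
    · simp [q1, h21, h22, h23, h24]

theorem wstep_c (cl : ℕ → ℕ) (rs : ℕ → ℕ → ℕ) (f : ℕ → ℕ) (t : ℕ) (a : WS) :
    (wstep cl rs f t a).c ≤ a.c + 1 := by
  unfold wstep
  split_ifs <;> simp

theorem P1_iter (hp : Prm cl rs w p) (ho : Orc p f cb) (l : ℕ → ℕ) (g : ℕ)
    (hl : ∀ i, l i < p 0) (hg : g < p 1) (hc : l 22 = 0) (n : ℕ) (hn : n ≤ p 3) :
    ∃ l', (sem w p 40 cb r (walkStep cl rs))^[n] (l, g) = (l', g) ∧ (∀ i, l' i < p 0) ∧
      (∀ i, i ∉ ({21, 22, 23, 24, 26, 27, 28, 29} : Finset ℕ) → l' i = l i) ∧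
      (⟨l' 21, l' 22, l' 23, l' 24⟩ : WS) =
        (wstep (cl w) (rs w) f (l 25))^[n] ⟨l 21, l 22, l 23, l 24⟩ ∧ l' 22 ≤ n := by
  induction n with
  | zero => exact ⟨l, rfl, hl, fun _ _ => rfl, rfl, by rw [hc]⟩
  | succ n ih =>
    obtain ⟨l1, h1, h2, h3, h4, h5⟩ := ih (by omega)
    have h6 := Prm_three_lt hp
    obtain ⟨l2, k1, k2, k3, k4⟩ := P1_step (r := r) hp ho l1 g h2 hg (by omega)
    refine ⟨l2, ?_, k2, fun i hi => (k3 i hi).trans (h3 i hi), ?_, ?_⟩
    · rw [Function.iterate_succ_apply', h1, k1]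
    · rw [Function.iterate_succ_apply', k4, h4, h3 25 (by decide)]
    · have h7 := wstep_c (cl w) (rs w) f (l1 25) ⟨l1 21, l1 22, l1 23, l1 24⟩
      rw [← k4] at h7
      simp only at h7
      omega

end

theorem mP1 : StP1 := by
  intro α cl rs w p f cb r g l hp ho hl hg
  have h0 : 0 < p 0 := by have := Prm_two_lt hp; omega
  set l0 := Function.update (Function.update (Function.update l 22 0) 23 0) 24 0 with hl0
  have hb : ∀ i, l0 i < p 0 := upd_lt (upd_lt (upd_lt hl _ _ h0) _ _ h0) _ _ h0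
  have e22 : l0 22 = 0 := by simp [hl0, Function.update_apply]
  have e23 : l0 23 = 0 := by simp [hl0, Function.update_apply]
  have e24 : l0 24 = 0 := by simp [hl0]
  have e21 : l0 21 = l 21 := by simp [hl0, Function.update_apply]
  have e25 : l0 25 = l 25 := by simp [hl0, Function.update_apply]
  obtain ⟨l', h1, h2, h3, h4, h5⟩ := P1_iter (r := r) hp ho l0 g hb hg e22 (p 3) le_rfl
  have hrun : sem w p 40 cb r (walkP cl rs) (l, g) = (l', g) := by
    rw [walkP, sem_cons, sem_asg 0 rfl h0, sem_cons, sem_asg 0 rfl h0, sem_cons, sem_asg 0 rfl h0,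
      sem_cons, sem_rep, sem_nil]
    exact h1
  rw [e21, e22, e23, e24, e25] at h4
  rw [hrun]
  have h6 : (⟨l' 21, l' 22, l' 23, l' 24⟩ : WS) = walk (p 3) (cl w) (rs w) f (l 21) (l 25) := h4
  refine ⟨rfl, h2, ?_, ?_, ?_, ?_, ?_⟩
  · intro i hi
    show l' i = l i
    rw [h3 i hi]
    simp only [Finset.mem_insert, Finset.mem_singleton, not_or] at hi
    obtain ⟨i1, i2, i3, i4, i5, i6, i7, i8⟩ := hi
    simp [hl0, Function.update_apply, i2, i3, i4]
  · exact congrArg WS.x h6
  · exact congrArg WS.c h6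
  · exact congrArg WS.s h6
  · exact congrArg WS.fr h6

end Pool.Agent.Helper83.PT.N82
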