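import Pool.Agent.Helper83.PT.St6

set_option autoImplicit false

/-! MODULE P10 of project DC (helper73), MP_26f0da_lc: the program computes SP f, all levels. -/

namespace Pool.Agent.Helper83.PT.N47

open Pool.Agent.Helper73.DC
open Finset
open scoped Classical

/-- Invariant of the macro machine. -/
def P10Inv (B : ℕ) (a : MS) : Prop :=
  a.q < B ∧ a.h < B ∧ (∀ z ∈ a.st, z.2 < B) ∧ a.res < B

theorem P10_mstep (h8 : StP8) {D B : ℕ} {cl : ℕ → ℕ} {rs : ℕ → ℕ → ℕ} {f : ℕ → ℕ}
    (hf : ∀ x, f x < B) (hcl : ∀ x, cl x < D) (hrs : ∀ x r, rs x r < D) (hD : D + 1 < B)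
    {a : MS} (ha : P10Inv B a) : P10Inv B (mstep D cl rs f a) := by
  obtain ⟨hw, hp, -⟩ := h8 D B cl rs f hf hcl hrs hD
  obtain ⟨h1, h2, h3, h4⟩ := ha
  unfold mstep
  split_ifs with c1 c2 c3
  · exact ⟨h1, h2, h3, h4⟩
  · exact ⟨h1, h2, h3, h4⟩
  · obtain ⟨q1, q2, q3, q4, q5⟩ := hp a.s a.h (a.q - 1) (by omega) h2
    refine ⟨(hw _ 0).2, ?_, ?_, ?_⟩
    · have := (hw (popf D cl rs f a.s a.h (a.q - 1)).r 0).1
      show (walk D cl rs f (popf D cl rs f a.s a.h (a.q - 1)).r 0).c < B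
      omega
    · intro z hz
      rcases List.mem_cons.1 hz with rfl | hz
      · exact q2
      · exact h3 z hz
    · show 0 < B
      omega
  · obtain ⟨q1, q2, q3, q4, q5⟩ := hp a.s a.h (a.q - 1) (by omega) h2
    have ht : (popf D cl rs f a.s a.h (a.q - 1)).t = 0 := by omega
    have hr := q4 ht
    rcases hst : a.st with _ | ⟨z, st'⟩
    · exact ⟨h1, h2, by rw [hst] at h3; exact h3, hr⟩
    · rw [hst] at h3
      refine ⟨hr, h3 z (List.mem_cons_self), fun y hy => h3 y (List.mem_cons_of_mem _ hy), ?_⟩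
      show 0 < B
      omega

theorem P10_SP (h8 : StP8) {D B : ℕ} {cl : ℕ → ℕ} {rs : ℕ → ℕ → ℕ} {f : ℕ → ℕ} (kk : ℕ)
    (hf : ∀ x, f x < B) (hcl : ∀ x, cl x < D) (hrs : ∀ x r, rs x r < D) (hD : D + 1 < B) (c : ℕ) :
    SP D kk cl rs f c < B := by
  have h0 : ∀ n, P10Inv B ((mstep D cl rs f)^[n] (minit D cl rs f c)) := by
    intro n
    induction n with
    | zero =>
      obtain ⟨hw, -, -⟩ := h8 D B cl rs f hf hcl hrs hD
      refine ⟨(hw c 0).2, ?_, ?_, ?_⟩
      · have := (hw c 0).1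
        show (walk D cl rs f c 0).c < B
        omega
      · intro z hz
        exact absurd hz (List.not_mem_nil)
      · show 0 < B
        omega
    | succ n ih =>
      rw [Function.iterate_succ_apply']
      exact P10_mstep h8 hf hcl hrs hD ih
  unfold SP
  split_ifs
  · exact hf c
  · exact (h0 kk).2.2.2

theorem P10_lo {m r g : ℕ} {l p : ℕ → ℕ} {i : ℕ} (h : i < m) : lo i (ctx m r g l p) = l i := by
  unfold lo ctx
  have e : 2 + i = (i + 1) + 1 := by omega
  rw [e]
  simp only [scons, cat, h, if_true]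

theorem P10_pa {r g : ℕ} {l p : ℕ → ℕ} (j : ℕ) : pa j (ctx 40 r g l p) = p j := by
  unfold pa ctx
  have e : 42 + j = ((40 + j) + 1) + 1 := by omega
  rw [e]
  simp only [scons, cat]
  rw [if_neg (by omega)]
  congr 1
  omega

section
variable {α : Type} (cl : List α → ℕ → ℕ) (rs : List α → ℕ → ℕ → ℕ) (w : List α) (p f : ℕ → ℕ)
  (cb : ℕ → ℕ → ℕ × ℕ) (r g : ℕ)

theorem P10_iter (h9 : StP9) (hP : Prm cl rs w p) (hO : Orc p f cb) (hg : g < p 1)
    (l : ℕ → ℕ) (hl : ∀ i, l i < p 0) (a : MS) (hI : HInv cl rs w p f l a 0) : ∀ n, n ≤ p 11 →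
    ((sem w p 40 cb r (hstP cl rs))^[n] (l, g)).2 = g ∧
    (∀ i, ((sem w p 40 cb r (hstP cl rs))^[n] (l, g)).1 i < p 0) ∧
    (∀ i < 4, ((sem w p 40 cb r (hstP cl rs))^[n] (l, g)).1 i = l i) ∧
    HInv cl rs w p f ((sem w p 40 cb r (hstP cl rs))^[n] (l, g)).1
      ((mstep (p 3) (cl w) (rs w) f)^[n] a) n := by
  intro n
  induction n with
  | zero => exact fun _ => ⟨rfl, hl, fun _ _ => rfl, hI⟩
  | succ n ih =>
    intro hn
    obtain ⟨i1, i2, i3, i4⟩ := ih (by omega)
    rw [Function.iterate_succ_apply', Function.iterate_succ_apply']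
    set s := (sem w p 40 cb r (hstP cl rs))^[n] (l, g) with hs
    have hse : s = (s.1, g) := Prod.ext rfl i1
    rw [hse]
    obtain ⟨j1, j2, j3, j4⟩ := h9 cl rs w p f cb r g s.1 _ n hP hO i2 hg (by omega) i4
    exact ⟨j1, j2, fun i hi => (j3 i hi).trans (i3 i hi), j4⟩

theorem P10_body (h1 : StP1) (h8 : StP8) (h9 : StP9) (hP : Prm cl rs w p) (hO : Orc p f cb)
    (hg : g < p 1) (x : ℕ) (hx : x < p 3) :
    (sem w p 40 cb r (body cl rs) (ini x, g)).1 1 = SP (p 3) (p 11) (cl w) (rs w) f x ∧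
    (sem w p 40 cb r (body cl rs) (ini x, g)).2 = g := by
  obtain ⟨hf, hcb⟩ := hO
  have hD := hP.hD
  have hM2 : p 2 < p 0 := by
    have h2 : p 2 ≤ p 2 ^ 5 := Nat.le_self_pow (by norm_num) _
    have := hP.hM0
    have := hP.hQM
    omega
  have hx0 : x < p 0 := by omega
  have hfx : f x < p 0 := lt_trans (hf x) hM2
  -- the state before the walk
  set l3 : ℕ → ℕ := Function.update (Function.update (Function.update (ini x) 2 (f x)) 21 x) 25 0
    with hl3
  have e3 : sem w p 40 cb r (Cmd.asg 25 (fun _ _ => 0)) (sem w p 40 cb r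
      (Cmd.asg 21 (fun _ v => lo 0 v)) (sem w p 40 cb r (Cmd.call 0 2) (ini x, g))) = (l3, g) := by
    have a1 : sem w p 40 cb r (Cmd.call 0 2) (ini x, g) =
        (Function.update (ini x) 2 (f x), g) := by
      simp only [sem]
      have a2 : (ini x) 0 = x := rfl
      rw [a2, hcb x hx g hg]
      simp only [Nat.mod_eq_of_lt hfx]
    rw [a1]
    simp only [sem]
    rw [P10_lo (by norm_num)]
    have a3 : Function.update (ini x) 2 (f x) 0 = x := by
      rw [Function.update_of_ne (by norm_num)]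
      rfl
    rw [a3, Nat.mod_eq_of_lt hx0, Nat.zero_mod]
  have hl3i : ∀ i, i ≠ 0 → i ≠ 2 → i ≠ 21 → l3 i = 0 := by
    intro i c0 c2 c21
    rw [hl3]
    by_cases c25 : i = 25
    · rw [c25, Function.update_self]
    · rw [Function.update_of_ne c25, Function.update_of_ne c21, Function.update_of_ne c2]
      unfold ini
      rw [if_neg c0]
  have hl30 : l3 0 = x := by
    rw [hl3, Function.update_of_ne (by norm_num), Function.update_of_ne (by norm_num),
      Function.update_of_ne (by norm_num)]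
    rfl
  have hl32 : l3 2 = f x := by
    rw [hl3, Function.update_of_ne (by norm_num), Function.update_of_ne (by norm_num),
      Function.update_self]
  have hl321 : l3 21 = x := by
    rw [hl3, Function.update_of_ne (by norm_num), Function.update_self]
  have hl325 : l3 25 = 0 := by
    rw [hl3, Function.update_self]
  have hl3M : ∀ i, l3 i < p 0 := by
    intro i
    by_cases c0 : i = 0
    · rw [c0, hl30]; exact hx0
    by_cases c2 : i = 2
    · rw [c2, hl32]; exact hfx
    by_cases c21 : i = 21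
    · rw [c21, hl321]; exact hx0
    rw [hl3i i c0 c2 c21]
    omega
  -- the walk
  obtain ⟨w1, w2, w3, w4, w5, w6, w7⟩ := h1 cl rs w p f cb r g l3 hP ⟨hf, hcb⟩ hl3M hg
  rw [hl321, hl325] at w5 w6
  set s4 := sem w p 40 cb r (walkP cl rs) (l3, g) with hs4
  set l4 := s4.1 with hl4
  have e4 : s4 = (l4, g) := Prod.ext rfl w1
  have hl4' : ∀ i, i < 21 → l4 i = l3 i := by
    intro i hi
    apply w3
    simp only [Finset.mem_insert, Finset.mem_singleton]
    omega
  obtain ⟨hw8, -, henc⟩ := h8 (p 3) (p 2) (cl w) (rs w) f hf hP.hcl hP.hrs hD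
  obtain ⟨hwc, hws⟩ := hw8 x 0
  have hxB : x < p 2 := by omega
  have hcB : (walk (p 3) (cl w) (rs w) f x 0).c < p 2 := by omega
  obtain ⟨E1, E2', E3', E4, E5, E6⟩ := henc x _ _ 0 0 hxB hcB hws (by omega) (by omega)
  set w1' := enc5 (p 2) x (walk (p 3) (cl w) (rs w) f x 0).c (walk (p 3) (cl w) (rs w) f x 0).s 0 0
    with hw1'
  have hw1Q : w1' < p 5 := lt_of_lt_of_le E1 hP.hM0
  have hw1M : w1' < p 0 := lt_trans hw1Q hP.hQM
  -- before the events
  set l6 : ℕ → ℕ := Function.update (Function.update l4 3 w1') 4 1 with hl6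
  have e6 : sem w p 40 cb r (Cmd.asg 4 (fun _ _ => 1)) (sem w p 40 cb r
      (Cmd.asg 3 (fun _ v => enc5 (pa 2 v) (lo 0 v) (lo 22 v) (lo 23 v) 0 0)) (l4, g)) =
      (l6, g) := by
    simp only [sem]
    rw [P10_pa, P10_lo (by norm_num), P10_lo (by norm_num), P10_lo (by norm_num), w5, w6,
      hl4' 0 (by norm_num), hl30, ← hw1', Nat.mod_eq_of_lt hw1M,
      Nat.mod_eq_of_lt (show 1 < p 0 by omega)]
  have hl6i : ∀ i, i ≠ 3 → i ≠ 4 → l6 i = l4 i := by
    intro i c3 c4
    rw [hl6, Function.update_of_ne c4, Function.update_of_ne c3]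
  have hl63 : l6 3 = w1' := by
    rw [hl6, Function.update_of_ne (by norm_num), Function.update_self]
  have hl64 : l6 4 = 1 := by
    rw [hl6, Function.update_self]
  have hl6z : ∀ i, 5 ≤ i → i < 21 → l6 i = 0 := by
    intro i c1 c2
    rw [hl6i i (by omega) (by omega), hl4' i c2, hl3i i (by omega) (by omega) (by omega)]
  have hl6M : ∀ i, l6 i < p 0 := by
    intro i
    by_cases c3 : i = 3
    · rw [c3, hl63]; exact hw1M
    by_cases c4 : i = 4
    · rw [c4, hl64]; omega
    rw [hl6i i c3 c4]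
    exact w2 i
  have hBpos : 0 < p 12 ^ (p 11 + 3) := by
    have := hP.hBh
    exact Nat.pow_pos (by omega)
  have hI : HInv cl rs w p f l6 (minit (p 3) (cl w) (rs w) f x) 0 := by
    refine ⟨fun _ => w1', [], ?_, ?_, ⟨?_, ?_, ?_⟩, ?_, ?_, ?_, ?_, ?_, ?_, ?_, ?_⟩
    · rw [hl64]
    · rw [hl64]
    · rw [hl63]
    · intro t _ _
      exact hw1Q
    · intro t ht1 ht2
      rw [hl64] at ht2
      omega
    · rw [hl6z 5 (by norm_num) (by norm_num)]
      exact hBpos
    · rw [hl6z 6 (by norm_num) (by norm_num)]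
      exact hBpos
    · rw [hl6z 7 (by norm_num) (by norm_num)]
      rfl
    · exact le_rfl
    · intro j hj
      exact absurd hj (List.not_mem_nil)
    · intro _
      exact ⟨hl6z 8 (by norm_num) (by norm_num), E2', E3', E4, rfl, rfl⟩
    · intro h
      exact absurd h (by simp [minit])
    · rw [hl6z 9 (by norm_num) (by norm_num)]
      rfl
  obtain ⟨k1, k2, k3, k4⟩ := P10_iter cl rs w p f cb r g h9 hP ⟨hf, hcb⟩ hg l6 hl6M _ hI (p 11) le_rfl
  set s7 := (sem w p 40 cb r (hstP cl rs))^[p 11] (l6, g) with hs7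
  -- the whole program
  have hbody : sem w p 40 cb r (body cl rs) (ini x, g) =
      sem w p 40 cb r (Cmd.asg 1 (fun _ v => if lo 2 v ≠ 0 then lo 2 v else lo 9 v)) s7 := by
    have b1 : sem w p 40 cb r (body cl rs) (ini x, g) =
        sem w p 40 cb r (Cmd.asg 1 (fun _ v => if lo 2 v ≠ 0 then lo 2 v else lo 9 v))
        (sem w p 40 cb r (Cmd.rep (fun _ v => v 11) (hstP cl rs))
        (sem w p 40 cb r (Cmd.asg 4 (fun _ _ => 1))
        (sem w p 40 cb r (Cmd.asg 3 (fun _ v => enc5 (pa 2 v) (lo 0 v) (lo 22 v) (lo 23 v) 0 0))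
        (sem w p 40 cb r (walkP cl rs)
        (sem w p 40 cb r (Cmd.asg 25 (fun _ _ => 0))
        (sem w p 40 cb r (Cmd.asg 21 (fun _ v => lo 0 v))
        (sem w p 40 cb r (Cmd.call 0 2) (ini x, g)))))))) := rfl
    rw [b1, e3, ← hs4, e4, e6]
    rfl
  rw [hbody]
  have h72 : s7.1 2 = f x := by
    rw [k3 2 (by norm_num), hl6i 2 (by norm_num) (by norm_num), hl4' 2 (by norm_num), hl32]
  have h79 : s7.1 9 = ((mstep (p 3) (cl w) (rs w) f)^[p 11] (minit (p 3) (cl w) (rs w) f x)).res := by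
    obtain ⟨W, js, -, -, -, -, -, -, -, -, -, -, h⟩ := k4
    exact h
  constructor
  · have c1 : sem w p 40 cb r (Cmd.asg 1 (fun _ v => if lo 2 v ≠ 0 then lo 2 v else lo 9 v)) s7 =
        (Function.update s7.1 1 ((if lo 2 (ctx 40 r s7.2 s7.1 p) ≠ 0 then
          lo 2 (ctx 40 r s7.2 s7.1 p) else lo 9 (ctx 40 r s7.2 s7.1 p)) % p 0), s7.2) := rfl
    rw [c1]
    show Function.update s7.1 1 _ 1 = _
    rw [Function.update_self, P10_lo (by norm_num), P10_lo (by norm_num)]
    unfold SP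
    rw [← h79, ← h72]
    split_ifs with c
    · exact Nat.mod_eq_of_lt (k2 2)
    · exact Nat.mod_eq_of_lt (k2 9)
  · exact k1

end

theorem mP10 : StP1 → StP8 → StP9 → StP10 := by
  intro h1 h8 h9 α cl rs w p f0 bs hP hf0 hbs
  have hM2 : p 2 < p 0 := by
    have h2 : p 2 ≤ p 2 ^ 5 := Nat.le_self_pow (by norm_num) _
    have := hP.hM0
    have := hP.hQM
    omega
  have hB : ∀ r x, (SP (p 3) (p 11) (cl w) (rs w))^[r] f0 x < p 2 := by
    intro r
    induction r with
    | zero => exact hf0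
    | succ r ih =>
      intro x
      rw [Function.iterate_succ_apply']
      exact P10_SP h8 (p 11) ih hP.hcl hP.hrs hP.hD x
  intro r
  induction r with
  | zero =>
    intro x g _ _
    show (bs w (scons x p) % p 0, g) = _
    rw [hbs, Nat.mod_eq_of_lt (lt_trans (hf0 x) hM2)]
    rfl
  | succ r ih =>
    intro x g hx hg
    have h := P10_body cl rs w p ((SP (p 3) (p 11) (cl w) (rs w))^[r] f0)
      (VV w p 40 bs (body cl rs) r) (r + 1) g h1 h8 h9 hP ⟨hB r, fun y hy g' hg' => ih y g' hy hg'⟩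
      hg x hx
    show ((sem w p 40 (VV w p 40 bs (body cl rs) r) (r + 1) (body cl rs) (ini x, g)).1 1,
       (sem w p 40 (VV w p 40 bs (body cl rs) r) (r + 1) (body cl rs) (ini x, g)).2) = _
    rw [h.1, h.2, Function.iterate_succ_apply']

end Pool.Agent.Helper83.PT.N47
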