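import Pool.Agent.Helper83.PT.St6

set_option autoImplicit false

/-! Project DC, module P4 (helper34): updates of one gate. -/

namespace Pool.Agent.Helper83.PT.N34

open Pool.Agent.Helper73.DC
open Finset
open scoped Classical

lemma lo_ctx (i r g : ℕ) (l p : ℕ → ℕ) (h : i < 40) : lo i (ctx 40 r g l p) = l i := by
  unfold lo ctx
  rw [show 2 + i = (i + 1) + 1 by ring]
  simp [scons, cat, h]

lemma pa_ctx (j r g : ℕ) (l p : ℕ → ℕ) : pa j (ctx 40 r g l p) = p j := by
  unfold pa ctx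
  rw [show 42 + j = (40 + j + 1) + 1 by ring]
  simp [scons, cat]

lemma gl_ctx (r g : ℕ) (l p : ℕ → ℕ) : gl (ctx 40 r g l p) = g := by
  unfold gl ctx
  simp [scons]

lemma sem_nil {α : Type} (w : List α) (p : ℕ → ℕ) (m : ℕ) (cb : ℕ → ℕ → ℕ × ℕ) (r : ℕ) (s : (ℕ → ℕ) × ℕ) :
    sem w p m cb r (sq []) s = s := rfl

lemma sem_cons {α : Type} (w : List α) (p : ℕ → ℕ) (m : ℕ) (cb : ℕ → ℕ → ℕ × ℕ) (r : ℕ) (c : Cmd α) (cs : List (Cmd α))
    (s : (ℕ → ℕ) × ℕ) : sem w p m cb r (sq (c :: cs)) s = sem w p m cb r (sq cs) (sem w p m cb r c s) := rfl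

lemma addB_addB {p : ℕ} (L o : ℕ) (f f' : ℕ → ZMod p) (r : RG p) :
    addB L o f (addB L o f' r) = addB L o (fun i => f' i + f i) r := by
  funext k i
  unfold addB
  by_cases h : k = o ∧ i < L
  · simp only [h, and_self, if_true]
    ring
  · simp only [h, if_false]

lemma addB_other {p : ℕ} (L o k : ℕ) (f : ℕ → ZMod p) (r : RG p) (h : k ≠ o) : addB L o f r k = r k := by
  funext i
  unfold addB
  simp [h]

lemma addB_zero {p : ℕ} (L o : ℕ) (r : RG p) (f : ℕ → ZMod p) (hf : ∀ i, f i = 0) : addB L o f r = r := by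
  funext k i
  unfold addB
  simp [hf]

/-- The invariant of the double loop. -/
def Inv (p l : ℕ → ℕ) (rr : RG (p 6)) (a b : ℕ) (T : ℕ → ZMod (p 6)) (s : (ℕ → ℕ) × ℕ) : Prop :=
  (∀ i, s.1 i < p 0) ∧ (∀ i, i < 18 ∨ 34 < i → s.1 i = l i) ∧ s.1 18 = a ∧ s.1 19 = b ∧
    Rp (p 6) (p 4) s.2 (if l 14 = 3 then addB (p 4) (l 16) (fun i => - (sgn (p 6) (l 17) * T i)) rr else rr)

/-- The contribution of the pair `(a, b)`. -/
noncomputable def term (p l : ℕ → ℕ) (G : ℕ → ℕ → ℕ → ℕ) (rr : RG (p 6)) (a b i : ℕ) : ZMod (p 6) :=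
  dl (p 6) (p 13) (p 4) a (rr ((l 16 + 1) % 3)) * dl (p 6) (p 13) (p 4) b (rr ((l 16 + 2) % 3)) *
    (dg (p 13) (G (dg (p 12) (l 5) (l 15)) a b) i : ZMod (p 6))

section
variable {α : Type} (cl : List α → ℕ → ℕ) (rs : List α → ℕ → ℕ → ℕ) (w : List α) (p f : ℕ → ℕ)
  (cb : ℕ → ℕ → ℕ × ℕ) (r : ℕ) (l : ℕ → ℕ) (rr : RG (p 6))

lemma step_B (h3 : StP3) (hm : StM3) (hP : Prm cl rs w p) (hO : Orc p f cb) (ho : l 14 = 3 → l 16 < 3)
    (a b : ℕ) (T : ℕ → ZMod (p 6)) (s : (ℕ → ℕ) × ℕ) (hb : b + 1 < p 0) (hI : Inv p l rr a b T s) :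
    Inv p l rr a (b + 1) (fun i => T i + term p l (GG cl rs w p f) rr a b i)
      (sem w p 40 cb r (stepB cl rs) s) := by
  obtain ⟨i1, i2, i3, i4, i5⟩ := hI
  have : Fact (p 6).Prime := ⟨hP.hp⟩
  have hg : s.2 < p 1 := by rw [hP.hG]; exact i5.1
  obtain ⟨g1, g2, g3, g4⟩ := h3 cl rs w p f cb r s.2 s.1 hP hO i1 hg
  have hs : (s.1, s.2) = s := rfl
  rw [hs] at g1 g2 g3 g4
  unfold stepB
  rw [sem_cons, sem_cons, sem_cons, sem_nil]
  generalize hs' : sem w p 40 cb r (gamP cl rs) s = s' at g1 g2 g3 g4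
  have e14 : s'.1 14 = l 14 := by rw [g3 14 (by norm_num), i2 14 (by norm_num)]
  have e16 : s'.1 16 = l 16 := by rw [g3 16 (by norm_num), i2 16 (by norm_num)]
  have e17 : s'.1 17 = l 17 := by rw [g3 17 (by norm_num), i2 17 (by norm_num)]
  have e18 : s'.1 18 = a := by rw [g3 18 (by norm_num), i3]
  have e19 : s'.1 19 = b := by rw [g3 19 (by norm_num), i4]
  have e5 : s.1 5 = l 5 := i2 5 (by norm_num)
  have e15 : s.1 15 = l 15 := i2 15 (by norm_num)
  rw [e5, e15, i3, i4] at g4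
  have hp6 : p 6 ≠ 0 := hP.hp.ne_zero
  simp only [sem, lo_ctx _ _ _ _ _ (show (14 : ℕ) < 40 by norm_num), lo_ctx _ _ _ _ _ (show (16 : ℕ) < 40 by norm_num),
    lo_ctx _ _ _ _ _ (show (17 : ℕ) < 40 by norm_num), lo_ctx _ _ _ _ _ (show (18 : ℕ) < 40 by norm_num),
    lo_ctx _ _ _ _ _ (show (19 : ℕ) < 40 by norm_num), lo_ctx _ _ _ _ _ (show (20 : ℕ) < 40 by norm_num),
    pa_ctx, gl_ctx, hp6, if_false, e14, e16, e17, e18, e19, g4, g1]
  refine ⟨?_, ?_, ?_, ?_, ?_⟩
  · intro i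
    dsimp only
    by_cases hi : i = 19
    · subst hi
      rw [Function.update_self]
      exact Nat.mod_lt _ (by omega)
    · rw [Function.update_of_ne hi]
      exact g2 i
  · intro i hi
    dsimp only
    rw [Function.update_of_ne (by omega), g3 i (by omega), i2 i hi]
  · dsimp only
    rw [Function.update_of_ne (by norm_num), e18]
  · dsimp only
    rw [Function.update_self, Nat.mod_eq_of_lt hb]
  · dsimp only
    by_cases h14 : l 14 = 3
    · simp only [h14, if_true] at i5 ⊢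
      have hM := (hm (p 6) (p 13) (p 4) s.2 _ hP.hB hP.hBp i5).2.2 (l 16) (l 17) a b (GG cl rs w p f (dg (p 12) (l 5) (l 15)) a b) (ho h14)
      rw [← hP.hG] at hM
      rw [Nat.mod_eq_of_lt (by rw [hP.hG]; rw [hP.hG] at hM; exact hM.1)]
      rw [addB_other _ _ _ _ _ (by have := ho h14; omega), addB_other _ _ _ _ _ (by have := ho h14; omega),
        addB_addB] at hM
      convert hM using 2
      funext i
      unfold term
      ring
    · simp only [h14, if_false] at i5 ⊢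
      rw [Nat.mod_eq_of_lt hg]
      exact i5

lemma iter_B (h3 : StP3) (hm : StM3) (hP : Prm cl rs w p) (hO : Orc p f cb) (ho : l 14 = 3 → l 16 < 3)
    (a : ℕ) (T : ℕ → ZMod (p 6)) (s : (ℕ → ℕ) × ℕ) (hI : Inv p l rr a 0 T s) (n : ℕ) (hn : n < p 0) :
    Inv p l rr a n (fun i => T i + ∑ b ∈ range n, term p l (GG cl rs w p f) rr a b i)
      ((sem w p 40 cb r (stepB cl rs))^[n] s) := by
  induction n with
  | zero => simpa using hI
  | succ n ih =>
    rw [Function.iterate_succ_apply']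
    have h := step_B cl rs w p f cb r l rr h3 hm hP hO ho a n _ _ hn (ih (by omega))
    convert h using 2
    rw [Finset.sum_range_succ]
    ring

lemma step_A (h3 : StP3) (hm : StM3) (hP : Prm cl rs w p) (hO : Orc p f cb) (ho : l 14 = 3 → l 16 < 3)
    (a b : ℕ) (T : ℕ → ZMod (p 6)) (s : (ℕ → ℕ) × ℕ) (ha : a + 1 < p 0) (hI : Inv p l rr a b T s) :
    ∃ b', Inv p l rr (a + 1) b'
      (fun i => T i + ∑ b ∈ range (p 13 ^ p 4), term p l (GG cl rs w p f) rr a b i)
      (sem w p 40 cb r (stepA cl rs) s) := by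
  have hp0 : p 5 < p 0 := hP.hQM
  unfold stepA
  rw [sem_cons, sem_cons, sem_cons, sem_nil]
  have h0 : Inv p l rr a 0 T (sem w p 40 cb r (Cmd.asg 19 (fun _ _ => 0)) s) := by
    obtain ⟨i1, i2, i3, i4, i5⟩ := hI
    simp only [sem]
    refine ⟨?_, ?_, ?_, ?_, ?_⟩
    · intro i
      dsimp only
      by_cases hi : i = 19
      · subst hi
        rw [Function.update_self]
        exact Nat.mod_lt _ (by omega)
      · rw [Function.update_of_ne hi]
        exact i1 i
    · intro i hi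
      dsimp only
      rw [Function.update_of_ne (by omega), i2 i hi]
    · dsimp only
      rw [Function.update_of_ne (by norm_num), i3]
    · dsimp only
      rw [Function.update_self]
      simp
    · exact i5
  have h1 := iter_B cl rs w p f cb r l rr h3 hm hP hO ho a T _ h0 (p 5) hp0
  have h2 : sem w p 40 cb r (Cmd.rep (fun _ v => v 5) (stepB cl rs)) (sem w p 40 cb r (Cmd.asg 19 (fun _ _ => 0)) s) =
      (sem w p 40 cb r (stepB cl rs))^[p 5] (sem w p 40 cb r (Cmd.asg 19 (fun _ _ => 0)) s) := by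
    simp only [sem]
  rw [h2]
  generalize (sem w p 40 cb r (stepB cl rs))^[p 5] (sem w p 40 cb r (Cmd.asg 19 (fun _ _ => 0)) s) = s' at h1 ⊢
  refine ⟨p 5, ?_⟩
  rw [← hP.hQ]
  obtain ⟨i1, i2, i3, i4, i5⟩ := h1
  simp only [sem, lo_ctx _ _ _ _ _ (show (18 : ℕ) < 40 by norm_num), i3]
  refine ⟨?_, ?_, ?_, ?_, ?_⟩
  · intro i
    dsimp only
    by_cases hi : i = 18
    · subst hi
      rw [Function.update_self]
      exact Nat.mod_lt _ (by omega)
    · rw [Function.update_of_ne hi]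
      exact i1 i
  · intro i hi
    dsimp only
    rw [Function.update_of_ne (by omega), i2 i hi]
  · dsimp only
    rw [Function.update_self, Nat.mod_eq_of_lt ha]
  · dsimp only
    rw [Function.update_of_ne (by norm_num), i4]
  · exact i5

lemma iter_A (h3 : StP3) (hm : StM3) (hP : Prm cl rs w p) (hO : Orc p f cb) (ho : l 14 = 3 → l 16 < 3)
    (b0 : ℕ) (s : (ℕ → ℕ) × ℕ) (hI : Inv p l rr 0 b0 (fun _ => 0) s) (n : ℕ) (hn : n < p 0) :
    ∃ b', Inv p l rr n b' (fun i => ∑ a ∈ range n, ∑ b ∈ range (p 13 ^ p 4), term p l (GG cl rs w p f) rr a b i)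
      ((sem w p 40 cb r (stepA cl rs))^[n] s) := by
  induction n with
  | zero => exact ⟨b0, by simpa using hI⟩
  | succ n ih =>
    rw [Function.iterate_succ_apply']
    obtain ⟨b', hb'⟩ := ih (by omega)
    obtain ⟨b'', hb''⟩ := step_A cl rs w p f cb r l rr h3 hm hP hO ho n b' _ _ hn hb'
    refine ⟨b'', ?_⟩
    convert hb'' using 2
    rw [Finset.sum_range_succ]

end

theorem mP4 : StP3 → StM3 → StP4 := by
  intro h3 hm α cl rs w p f cb r g l rr hP hO hl hR ho
  have hp0 : p 5 < p 0 := hP.hQM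
  have h0 : Inv p l rr 0 (l 19) (fun _ => 0) (sem w p 40 cb r (Cmd.asg 18 (fun _ _ => 0)) (l, g)) := by
    simp only [sem]
    refine ⟨?_, ?_, ?_, ?_, ?_⟩
    · intro i
      dsimp only
      by_cases hi : i = 18
      · subst hi
        rw [Function.update_self]
        exact Nat.mod_lt _ (by omega)
      · rw [Function.update_of_ne hi]
        exact hl i
    · intro i hi
      dsimp only
      rw [Function.update_of_ne (by omega)]
    · dsimp only
      rw [Function.update_self]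
      simp
    · dsimp only
      rw [Function.update_of_ne (by norm_num)]
    · by_cases h14 : l 14 = 3
      · rw [if_pos h14, addB_zero _ _ _ _ (by simp)]
        exact hR
      · rw [if_neg h14]
        exact hR
  obtain ⟨b', hb'⟩ := iter_A cl rs w p f cb r l rr h3 hm hP hO ho _ _ h0 (p 5) hp0
  have h2 : sem w p 40 cb r (opP cl rs) (l, g) =
      (sem w p 40 cb r (stepA cl rs))^[p 5] (sem w p 40 cb r (Cmd.asg 18 (fun _ _ => 0)) (l, g)) := by
    unfold opP
    rw [sem_cons, sem_cons, sem_nil]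
    simp only [sem]
  rw [h2]
  obtain ⟨i1, i2, i3, i4, i5⟩ := hb'
  refine ⟨i1, i2, ?_⟩
  convert i5 using 1
  by_cases h14 : l 14 = 3
  · simp only [h14, if_true, opB]
    rw [if_neg (by norm_num), if_neg (by norm_num), hP.hQ]
    rfl
  · simp only [h14, if_false]

end Pool.Agent.Helper83.PT.N34
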