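import Pool.Agent.Helper83.PT.St6

set_option autoImplicit false

namespace Pool.Agent.Helper83.PT.N36

open Pool.Agent.Helper73.DC
open Finset
open scoped Classical

theorem lo_ctx (i r g : ℕ) (l p : ℕ → ℕ) (h : i < 40) : lo i (ctx 40 r g l p) = l i := by
  show scons r (scons g (cat 40 l p)) (2 + i) = l i
  have h1 : 2 + i = i + 1 + 1 := by omega
  rw [h1]
  show cat 40 l p i = l i
  simp [cat, h]

theorem pa_ctx (j r g : ℕ) (l p : ℕ → ℕ) : pa j (ctx 40 r g l p) = p j := by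
  show scons r (scons g (cat 40 l p)) (42 + j) = p j
  have h1 : 42 + j = (40 + j) + 1 + 1 := by omega
  rw [h1]
  show cat 40 l p (40 + j) = p j
  simp [cat]

theorem gl_ctx (r g : ℕ) (l p : ℕ → ℕ) : gl (ctx 40 r g l p) = g := rfl

section
variable {α : Type} (w : List α) (p : ℕ → ℕ) (cb : ℕ → ℕ → ℕ × ℕ) (r : ℕ)

theorem sem_nil (s : (ℕ → ℕ) × ℕ) : sem w p 40 cb r (sq []) s = s := by
  show (sem w p 40 cb r (Cmd.glb (fun _ v => gl v)))^[0] s = s
  rfl

theorem sem_cons (c : Cmd α) (cs : List (Cmd α)) (s : (ℕ → ℕ) × ℕ) :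
    sem w p 40 cb r (sq (c :: cs)) s = sem w p 40 cb r (sq cs) (sem w p 40 cb r c s) := rfl

theorem sem_asg (i : ℕ) (F : VF α) (l : ℕ → ℕ) (g : ℕ) :
    sem w p 40 cb r (Cmd.asg i F) (l, g) = (Function.update l i (F w (ctx 40 r g l p) % p 0), g) := rfl

theorem sem_glb (F : VF α) (l : ℕ → ℕ) (g : ℕ) :
    sem w p 40 cb r (Cmd.glb F) (l, g) = (l, F w (ctx 40 r g l p) % p 1) := rfl

end

theorem dcd_bound (b : ℕ) (m : ℕ → ℕ) (X : ℕ) (hX : 3 < X) (hm : ∀ j, m j < X) :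
    ∀ (d t o s y : ℕ), t < X → o < 3 → s < X →
      (dcd b m d t o s y).k < X ∧ (dcd b m d t o s y).t < X ∧ (dcd b m d t o s y).o < 3 ∧
        (dcd b m d t o s y).s < X ∧ (dcd b m d t o s y).k ≤ 3 := by
  intro d
  induction d with
  | zero =>
    intro t o s y ht ho hs
    rw [dcd]
    split_ifs
    · refine ⟨?_, ht, ho, hs, ?_⟩ <;> simp <;> omega
    · refine ⟨?_, ?_, ?_, ?_, ?_⟩ <;> simp <;> omega
  | succ d ih =>
    intro t o s y ht ho hs
    have hmod : ∀ z : ℕ, z % 3 < 3 := fun z => Nat.mod_lt _ (by norm_num)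
    rw [dcd]
    split_ifs
    · refine ⟨?_, ht, ho, hs, ?_⟩ <;> simp <;> omega
    · refine ⟨?_, ?_, ?_, ?_, ?_⟩ <;> simp <;> omega
    · refine ⟨?_, ht, ho, hs, ?_⟩ <;> simp <;> omega
    · refine ⟨?_, ?_, ?_, ?_, ?_⟩ <;> simp <;> omega
    · exact ih _ _ _ _ (by omega) (hmod _) (by omega)
    · exact ih _ _ _ _ (hm t) (hmod _) (by omega)
    · refine ⟨?_, ht, ho, hs, ?_⟩ <;> simp <;> omega
    · refine ⟨?_, ?_, ?_, ?_, ?_⟩ <;> simp <;> omega
    · exact ih _ _ _ _ (hm t) (hmod _) (by omega)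
    · exact ih _ _ _ _ (by omega) (hmod _) (by omega)

theorem mP5 (h4 : StP4) (h3 : StM3) (h5 : StM5) : StP5 := by
  intro α cl rs w p f cb r g l rr hP hO hl hR hT hy
  have hprime : Fact (p 6).Prime := ⟨hP.hp⟩
  have hp6 : p 6 ≠ 0 := hP.hp.ne_zero
  have hp2 : 2 ≤ p 2 := by have := hP.hD; omega
  have h32 : 32 ≤ p 2 ^ 5 := by
    calc 32 = 2 ^ 5 := by norm_num
      _ ≤ p 2 ^ 5 := Nat.pow_le_pow_left hp2 5
  have hp0 : 32 < p 0 := by have := hP.hM0; have := hP.hQM; omega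
  -- the operation
  set q : Op := dcd (6 * (p 6 - 1)) (fun t => dg (p 12) (l 6) t) (p 9) (l 4 + 1) 0 (l 35) (l 13) with hq
  have hb1 : 1 ≤ p 8 := by
    rw [hP.hb]
    have := hP.hp.two_le
    omega
  have hdc : dcdc (p 10) (p 8) (p 12) (l 6) (p 9) (l 4 + 1) 0 (l 35) (l 13) = q := by
    rw [hq, h5.2 _ _ _ _ _ _ _ _ _ hb1 (le_of_eq hP.hbD.symm), hP.hb]
  have hqb := dcd_bound (6 * (p 6 - 1)) (fun t => dg (p 12) (l 6) t) (p 0) (by omega)
    (fun j => lt_of_le_of_lt ((Nat.mod_le _ _).trans (Nat.div_le_self _ _)) (hl 6))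
    (p 9) (l 4 + 1) 0 (l 35) (l 13) hT (by norm_num) (hl 35)
  rw [← hq] at hqb
  obtain ⟨hqk, hqt, hqo, hqs, hqk3⟩ := hqb
  -- the first five commands
  set l1 : ℕ → ℕ := Function.update (Function.update (Function.update (Function.update l 14 q.k) 15 q.t) 16 q.o)
    17 q.s with hl1
  have hl1i : ∀ i, i ≠ 14 → i ≠ 15 → i ≠ 16 → i ≠ 17 → l1 i = l i := by
    intro i h1 h2 h3 h4
    simp [hl1, h1, h2, h3, h4]
  have hl114 : l1 14 = q.k := by simp [hl1]
  have hl115 : l1 15 = q.t := by simp [hl1]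
  have hl116 : l1 16 = q.o := by simp [hl1]
  have hl117 : l1 17 = q.s := by simp [hl1]
  have hl1b : ∀ i, l1 i < p 0 := by
    intro i
    by_cases h1 : i = 14
    · rw [h1, hl114]; exact hqk
    by_cases h2 : i = 15
    · rw [h2, hl115]; exact hqt
    by_cases h3 : i = 16
    · rw [h3, hl116]; omega
    by_cases h4 : i = 17
    · rw [h4, hl117]; exact hqs
    rw [hl1i i h1 h2 h3 h4]
    exact hl i
  set g1 : ℕ := if q.k = 1 then addn (p 1) (p 6) (p 13) (p 4) g q.o q.s (l 3)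
    else if q.k = 2 then scln (p 1) (p 6) (p 4) (p 7) g q.o else g with hg1
  set rr1 : RG (p 6) := if q.k = 1 then addB (p 4) q.o (fun i => sgn (p 6) q.s * (dg (p 13) (l 3) i : ZMod (p 6))) rr
    else if q.k = 2 then sclB (p 4) q.o (p 7 : ZMod (p 6)) rr else rr with hrr1
  have hR1 : Rp (p 6) (p 4) g1 rr1 := by
    obtain ⟨ha, hb, -⟩ := h3 (p 6) (p 13) (p 4) g rr hP.hB hP.hBp hR
    rw [hg1, hrr1, hP.hG]
    split_ifs
    · exact ha _ _ _ hqo
    · exact hb _ _ hqo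
    · exact hR
  have hg1lt : g1 < p 1 := by rw [hP.hG]; exact hR1.1
  have hst : sem w p 40 cb r (stepY cl rs) (l, g) =
      sem w p 40 cb r (sq [opP cl rs, Cmd.asg 13 (fun _ v => lo 13 v + 1)]) (l1, g1) := by
    unfold stepY
    rw [sem_cons, sem_asg, sem_cons, sem_asg, sem_cons, sem_asg, sem_cons, sem_asg, sem_cons, sem_glb]
    have e1 : ∀ (L : ℕ → ℕ) (G : ℕ), L 6 = l 6 → L 4 = l 4 → L 35 = l 35 → L 13 = l 13 →
        dcdc (pa 10 (ctx 40 r G L p)) (pa 8 (ctx 40 r G L p)) (pa 12 (ctx 40 r G L p)) (lo 6 (ctx 40 r G L p))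
          (pa 9 (ctx 40 r G L p)) (lo 4 (ctx 40 r G L p) + 1) 0 (lo 35 (ctx 40 r G L p))
          (lo 13 (ctx 40 r G L p)) = q := by
      intro L G a1 a2 a3 a4
      rw [pa_ctx, pa_ctx, pa_ctx, pa_ctx, lo_ctx 6 _ _ _ _ (by norm_num), lo_ctx 4 _ _ _ _ (by norm_num),
        lo_ctx 35 _ _ _ _ (by norm_num), lo_ctx 13 _ _ _ _ (by norm_num), a1, a2, a3, a4, hdc]
    have m1 : q.k % p 0 = q.k := Nat.mod_eq_of_lt hqk
    have m2 : q.t % p 0 = q.t := Nat.mod_eq_of_lt hqt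
    have m3 : q.o % p 0 = q.o := Nat.mod_eq_of_lt (by omega)
    have m4 : q.s % p 0 = q.s := Nat.mod_eq_of_lt hqs
    rw [e1 l g rfl rfl rfl rfl, m1]
    rw [e1 (Function.update l 14 q.k) g (by simp) (by simp) (by simp) (by simp), m2]
    rw [e1 (Function.update (Function.update l 14 q.k) 15 q.t) g (by simp) (by simp) (by simp) (by simp), m3]
    rw [e1 (Function.update (Function.update (Function.update l 14 q.k) 15 q.t) 16 q.o) g (by simp) (by simp)
      (by simp) (by simp), m4]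
    rw [← hl1]
    congr 2
    rw [pa_ctx, pa_ctx, pa_ctx, pa_ctx, pa_ctx, gl_ctx, lo_ctx 14 _ _ _ _ (by norm_num), lo_ctx 16 _ _ _ _ (by norm_num),
      lo_ctx 17 _ _ _ _ (by norm_num), lo_ctx 3 _ _ _ _ (by norm_num), if_neg hp6, hl114, hl116, hl117,
      hl1i 3 (by norm_num) (by norm_num) (by norm_num) (by norm_num), ← hg1]
    exact Nat.mod_eq_of_lt hg1lt
  have H4 := h4 cl rs w p f cb r g1 l1 rr1 hP hO hl1b hR1 (by intro _; rw [hl116]; exact hqo)
  set S := sem w p 40 cb r (opP cl rs) (l1, g1) with hS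
  obtain ⟨hS1, hS2, hS3⟩ := H4
  have hfin : sem w p 40 cb r (stepY cl rs) (l, g) = (Function.update S.1 13 ((S.1 13 + 1) % p 0), S.2) := by
    rw [hst, sem_cons, sem_cons, sem_nil]
    show sem w p 40 cb r (Cmd.asg 13 (fun _ v => lo 13 v + 1)) S = _
    show sem w p 40 cb r (Cmd.asg 13 (fun _ v => lo 13 v + 1)) (S.1, S.2) = _
    rw [sem_asg, lo_ctx 13 _ _ _ _ (by norm_num)]
  have hS13 : S.1 13 = l 13 := by
    rw [hS2 13 (Or.inl (by norm_num)), hl1i 13 (by norm_num) (by norm_num) (by norm_num) (by norm_num)]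
  have hy0 : l 13 + 1 < p 0 := by have := hP.hbM; omega
  rw [hfin]
  refine ⟨?_, ?_, ?_, ?_⟩
  · intro i
    by_cases h1 : i = 13
    · subst h1
      simp only [Function.update_self]
      exact Nat.mod_lt _ (by omega)
    · simp only [Function.update_of_ne h1]
      exact hS1 i
  · intro i hi
    have h1 : i ≠ 13 := by omega
    simp only [Function.update_of_ne h1]
    rw [hS2 i (by omega), hl1i i (by omega) (by omega) (by omega) (by omega)]
  · simp only [Function.update_self]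
    rw [hS13, Nat.mod_eq_of_lt hy0]
  · show Rp (p 6) (p 4) S.2 _
    have hl13' : l1 3 = l 3 := hl1i 3 (by norm_num) (by norm_num) (by norm_num) (by norm_num)
    have hl15' : l1 5 = l 5 := hl1i 5 (by norm_num) (by norm_num) (by norm_num) (by norm_num)
    rw [hl114, hl115, hl116, hl117, hl13', hl15'] at hS3
    convert hS3 using 1
    by_cases k3 : q.k = 3
    · have n1 : rr1 = rr := by rw [hrr1, if_neg (by omega), if_neg (by omega)]
      rw [if_pos k3, n1]
      have hqe : q = ⟨3, q.t, q.o, q.s⟩ := by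
        ext
        · exact k3
        · rfl
        · rfl
        · rfl
      conv_lhs => rw [hqe]
    · rw [if_neg k3, hrr1]
      unfold opB
      by_cases k1 : q.k = 1
      · rw [if_pos k1, if_pos k1]
      · by_cases k2 : q.k = 2
        · rw [if_neg k1, if_neg k1, if_pos k2, if_pos k2]
        · rw [if_neg k1, if_neg k1, if_neg k2, if_neg k2, if_neg k3]

end Pool.Agent.Helper83.PT.N36
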