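import Pool.Agent.Helper83.PT.St6

set_option autoImplicit false

/-! Project DC, module P9: one event = one macro step. -/

namespace Pool.Agent.Helper83.PT.N51

open Pool.Agent.Helper73.DC
open Finset
open scoped Classical

theorem lo_ctx (i r g : ℕ) (l p : ℕ → ℕ) (hi : i < 40) : lo i (ctx 40 r g l p) = l i := by
  show scons r (scons g (cat 40 l p)) (2 + i) = l i
  rw [Nat.add_comm]
  show cat 40 l p i = l i
  simp [cat, hi]

theorem pa_ctx (j r g : ℕ) (l p : ℕ → ℕ) : pa j (ctx 40 r g l p) = p j := by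
  show scons r (scons g (cat 40 l p)) (42 + j) = p j
  have e : 42 + j = (40 + j) + 2 := by omega
  rw [e]
  show cat 40 l p (40 + j) = p j
  simp [cat]

section
variable {α : Type} (w : List α) (p : ℕ → ℕ) (cb : ℕ → ℕ → ℕ × ℕ) (r : ℕ)

theorem sem_cons (c : Cmd α) (cs : List (Cmd α)) (s : (ℕ → ℕ) × ℕ) :
    sem w p 40 cb r (sq (c :: cs)) s = sem w p 40 cb r (sq cs) (sem w p 40 cb r c s) := rfl

theorem sem_nil (s : (ℕ → ℕ) × ℕ) : sem w p 40 cb r (sq []) s = s := rfl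

theorem asg_step (F : VF α) (i : ℕ) (l : ℕ → ℕ) (g : ℕ) : ∃ l' : ℕ → ℕ,
    sem w p 40 cb r (Cmd.asg i F) (l, g) = (l', g) ∧
    l' i = F w (ctx 40 r g l p) % p 0 ∧ ∀ j, j ≠ i → l' j = l j :=
  ⟨_, rfl, by simp, fun j hj => by simp [Function.update_of_ne hj]⟩

/-- The action. -/
def actn (x8 x7 V : ℕ) : ℕ :=
  if x8 ≠ 0 then 0 else if V % 3 = 1 then 1 else if V % 3 = 0 then (if x7 ≠ 0 then 2 else 3) else 4

/-- The assignments after `outP`. -/
theorem tail_sem (hM : 5 ≤ p 0) (l : ℕ → ℕ) (g : ℕ) (hl : ∀ j, l j < p 0) : ∃ L : ℕ → ℕ,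
    sem w p 40 cb r (sq [
      Cmd.asg 37 (fun _ v => lo 12 v % 3),
      Cmd.asg 38 (fun _ v => lo 12 v / 3),
      Cmd.asg 39 (fun _ v => if lo 8 v ≠ 0 then 0 else if lo 37 v = 1 then 1
        else if lo 37 v = 0 then (if lo 7 v ≠ 0 then 2 else 3) else 4),
      Cmd.asg 5 (fun _ v => if lo 39 v = 1 then sdc (pa 0 v) (pa 12 v) (lo 5 v) (lo 4 v + 1) 1
        else if lo 39 v = 2 then sdc (pa 0 v) (pa 12 v) (lo 5 v) (lo 4 v + 1) 0 else lo 5 v),
      Cmd.asg 6 (fun _ v => if lo 39 v = 2 then sdc (pa 0 v) (pa 12 v) (lo 6 v) (lo 4 v + 1) (lo 7 v % pa 12 v) else lo 6 v),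
      Cmd.asg 9 (fun _ v => if lo 39 v = 3 then lo 38 v + 1 else lo 9 v),
      Cmd.asg 8 (fun _ v => if lo 39 v = 3 ∨ lo 39 v = 4 then 1 else lo 8 v),
      Cmd.asg 7 (fun _ v => if lo 39 v = 1 then lo 7 v * pa 12 v + (lo 4 v + 1)
        else if lo 39 v = 2 then lo 7 v / pa 12 v else lo 7 v),
      Cmd.asg 4 (fun _ v => if lo 39 v = 1 ∨ lo 39 v = 2 then lo 4 v + 1 else lo 4 v)]) (l, g) = (L, g) ∧
    (∀ j, L j < p 0) ∧ (∀ j < 4, L j = l j) ∧
    L 4 = (if actn (l 8) (l 7) (l 12) = 1 ∨ actn (l 8) (l 7) (l 12) = 2 then l 4 + 1 else l 4) % p 0 ∧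
    L 5 = (if actn (l 8) (l 7) (l 12) = 1 then sdc (p 0) (p 12) (l 5) (l 4 + 1) 1
        else if actn (l 8) (l 7) (l 12) = 2 then sdc (p 0) (p 12) (l 5) (l 4 + 1) 0 else l 5) % p 0 ∧
    L 6 = (if actn (l 8) (l 7) (l 12) = 2 then sdc (p 0) (p 12) (l 6) (l 4 + 1) (l 7 % p 12) else l 6) % p 0 ∧
    L 7 = (if actn (l 8) (l 7) (l 12) = 1 then l 7 * p 12 + (l 4 + 1)
        else if actn (l 8) (l 7) (l 12) = 2 then l 7 / p 12 else l 7) % p 0 ∧
    L 8 = (if actn (l 8) (l 7) (l 12) = 3 ∨ actn (l 8) (l 7) (l 12) = 4 then 1 else l 8) % p 0 ∧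
    L 9 = (if actn (l 8) (l 7) (l 12) = 3 then l 12 / 3 + 1 else l 9) % p 0 := by
  have hpos : 0 < p 0 := by omega
  obtain ⟨l1, e1, a1, b1⟩ := asg_step w p cb r (fun _ v => lo 12 v % 3) 37 l g
  obtain ⟨l2, e2, a2, b2⟩ := asg_step w p cb r (fun _ v => lo 12 v / 3) 38 l1 g
  obtain ⟨l3, e3, a3, b3⟩ := asg_step w p cb r (fun _ v => if lo 8 v ≠ 0 then 0 else if lo 37 v = 1 then 1
        else if lo 37 v = 0 then (if lo 7 v ≠ 0 then 2 else 3) else 4) 39 l2 g
  obtain ⟨l4, e4, a4, b4⟩ := asg_step w p cb r (fun _ v => if lo 39 v = 1 then sdc (pa 0 v) (pa 12 v) (lo 5 v) (lo 4 v + 1) 1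
        else if lo 39 v = 2 then sdc (pa 0 v) (pa 12 v) (lo 5 v) (lo 4 v + 1) 0 else lo 5 v) 5 l3 g
  obtain ⟨l5, e5, a5, b5⟩ := asg_step w p cb r (fun _ v => if lo 39 v = 2 then sdc (pa 0 v) (pa 12 v) (lo 6 v) (lo 4 v + 1) (lo 7 v % pa 12 v) else lo 6 v) 6 l4 g
  obtain ⟨l6, e6, a6, b6⟩ := asg_step w p cb r (fun _ v => if lo 39 v = 3 then lo 38 v + 1 else lo 9 v) 9 l5 g
  obtain ⟨l7, e7, a7, b7⟩ := asg_step w p cb r (fun _ v => if lo 39 v = 3 ∨ lo 39 v = 4 then 1 else lo 8 v) 8 l6 g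
  obtain ⟨l8, e8, a8, b8⟩ := asg_step w p cb r (fun _ v => if lo 39 v = 1 then lo 7 v * pa 12 v + (lo 4 v + 1)
        else if lo 39 v = 2 then lo 7 v / pa 12 v else lo 7 v) 7 l7 g
  obtain ⟨l9, e9, a9, b9⟩ := asg_step w p cb r (fun _ v => if lo 39 v = 1 ∨ lo 39 v = 2 then lo 4 v + 1 else lo 4 v) 4 l8 g
  have hlo : ∀ (i : ℕ) (l : ℕ → ℕ), i < 40 → lo i (ctx 40 r g l p) = l i := fun i l hi => lo_ctx i r g l p hi
  have hpa : ∀ (j : ℕ) (l : ℕ → ℕ), pa j (ctx 40 r g l p) = p j := fun j l => pa_ctx j r g l p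
  have h12 : l 12 / 3 < p 0 := (Nat.div_le_self _ _).trans_lt (hl 12)
  -- values
  have v37 : l1 37 = l 12 % 3 := by
    rw [a1, hlo 12 l (by norm_num)]
    exact Nat.mod_eq_of_lt ((Nat.mod_lt _ (by norm_num)).trans (by omega))
  have v38 : l2 38 = l 12 / 3 := by
    rw [a2, hlo 12 l1 (by norm_num), b1 12 (by norm_num)]
    exact Nat.mod_eq_of_lt h12
  have v39 : l3 39 = actn (l 8) (l 7) (l 12) := by
    rw [a3, hlo 8 l2 (by norm_num), hlo 37 l2 (by norm_num), hlo 7 l2 (by norm_num), b2 8 (by norm_num), b2 37 (by norm_num),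
      b2 7 (by norm_num), v37, b1 8 (by norm_num), b1 7 (by norm_num)]
    unfold actn
    apply Nat.mod_eq_of_lt
    split_ifs <;> omega
  generalize hA : actn (l 8) (l 7) (l 12) = A at *
  have w39 : l4 39 = A ∧ l5 39 = A ∧ l6 39 = A ∧ l7 39 = A ∧ l8 39 = A := by
    refine ⟨?_, ?_, ?_, ?_, ?_⟩
    · rw [b4 39 (by norm_num), v39]
    · rw [b5 39 (by norm_num), b4 39 (by norm_num), v39]
    · rw [b6 39 (by norm_num), b5 39 (by norm_num), b4 39 (by norm_num), v39]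
    · rw [b7 39 (by norm_num), b6 39 (by norm_num), b5 39 (by norm_num), b4 39 (by norm_num), v39]
    · rw [b8 39 (by norm_num), b7 39 (by norm_num), b6 39 (by norm_num), b5 39 (by norm_num), b4 39 (by norm_num), v39]
  obtain ⟨q4, q5, q6, q7, q8⟩ := w39
  have o3 : ∀ j, j ≠ 37 → j ≠ 38 → j ≠ 39 → l3 j = l j := fun j h1 h2 h3 => by rw [b3 j h3, b2 j h2, b1 j h1]
  have v5 : l4 5 = (if A = 1 then sdc (p 0) (p 12) (l 5) (l 4 + 1) 1
        else if A = 2 then sdc (p 0) (p 12) (l 5) (l 4 + 1) 0 else l 5) % p 0 := by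
    rw [a4, hlo 39 l3 (by norm_num), hlo 5 l3 (by norm_num), hlo 4 l3 (by norm_num), hpa, hpa, v39,
      o3 5 (by norm_num) (by norm_num) (by norm_num), o3 4 (by norm_num) (by norm_num) (by norm_num)]
  have o4 : ∀ j, j ≠ 37 → j ≠ 38 → j ≠ 39 → j ≠ 5 → l4 j = l j := fun j h1 h2 h3 h4 => by rw [b4 j h4, o3 j h1 h2 h3]
  have v6 : l5 6 = (if A = 2 then sdc (p 0) (p 12) (l 6) (l 4 + 1) (l 7 % p 12) else l 6) % p 0 := by
    rw [a5, hlo 39 l4 (by norm_num), hlo 6 l4 (by norm_num), hlo 4 l4 (by norm_num), hlo 7 l4 (by norm_num), hpa, hpa, q4,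
      o4 6 (by norm_num) (by norm_num) (by norm_num) (by norm_num), o4 4 (by norm_num) (by norm_num) (by norm_num) (by norm_num),
      o4 7 (by norm_num) (by norm_num) (by norm_num) (by norm_num)]
  have o5 : ∀ j, j ≠ 37 → j ≠ 38 → j ≠ 39 → j ≠ 5 → j ≠ 6 → l5 j = l j := fun j h1 h2 h3 h4 h5 => by
    rw [b5 j h5, o4 j h1 h2 h3 h4]
  have v9 : l6 9 = (if A = 3 then l 12 / 3 + 1 else l 9) % p 0 := by
    rw [a6, hlo 39 l5 (by norm_num), hlo 38 l5 (by norm_num), hlo 9 l5 (by norm_num), q5,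
      o5 9 (by norm_num) (by norm_num) (by norm_num) (by norm_num) (by norm_num), b5 38 (by norm_num), b4 38 (by norm_num),
      b3 38 (by norm_num), v38]
  have o6 : ∀ j, j ≠ 37 → j ≠ 38 → j ≠ 39 → j ≠ 5 → j ≠ 6 → j ≠ 9 → l6 j = l j := fun j h1 h2 h3 h4 h5 h6 => by
    rw [b6 j h6, o5 j h1 h2 h3 h4 h5]
  have v8 : l7 8 = (if A = 3 ∨ A = 4 then 1 else l 8) % p 0 := by
    rw [a7, hlo 39 l6 (by norm_num), hlo 8 l6 (by norm_num), q6,
      o6 8 (by norm_num) (by norm_num) (by norm_num) (by norm_num) (by norm_num) (by norm_num)]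
  have o7 : ∀ j, j ≠ 37 → j ≠ 38 → j ≠ 39 → j ≠ 5 → j ≠ 6 → j ≠ 9 → j ≠ 8 → l7 j = l j := fun j h1 h2 h3 h4 h5 h6 h7 => by
    rw [b7 j h7, o6 j h1 h2 h3 h4 h5 h6]
  have v7 : l8 7 = (if A = 1 then l 7 * p 12 + (l 4 + 1) else if A = 2 then l 7 / p 12 else l 7) % p 0 := by
    rw [a8, hlo 39 l7 (by norm_num), hlo 7 l7 (by norm_num), hlo 4 l7 (by norm_num), hpa, q7,
      o7 7 (by norm_num) (by norm_num) (by norm_num) (by norm_num) (by norm_num) (by norm_num) (by norm_num),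
      o7 4 (by norm_num) (by norm_num) (by norm_num) (by norm_num) (by norm_num) (by norm_num) (by norm_num)]
  have o8 : ∀ j, j ≠ 37 → j ≠ 38 → j ≠ 39 → j ≠ 5 → j ≠ 6 → j ≠ 9 → j ≠ 8 → j ≠ 7 → l8 j = l j :=
    fun j h1 h2 h3 h4 h5 h6 h7 h8 => by rw [b8 j h8, o7 j h1 h2 h3 h4 h5 h6 h7]
  have v4 : l9 4 = (if A = 1 ∨ A = 2 then l 4 + 1 else l 4) % p 0 := by
    rw [a9, hlo 39 l8 (by norm_num), hlo 4 l8 (by norm_num), q8,
      o8 4 (by norm_num) (by norm_num) (by norm_num) (by norm_num) (by norm_num) (by norm_num) (by norm_num) (by norm_num)]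
  have o9 : ∀ j, j ≠ 37 → j ≠ 38 → j ≠ 39 → j ≠ 5 → j ≠ 6 → j ≠ 9 → j ≠ 8 → j ≠ 7 → j ≠ 4 → l9 j = l j :=
    fun j h1 h2 h3 h4 h5 h6 h7 h8 h9 => by rw [b9 j h9, o8 j h1 h2 h3 h4 h5 h6 h7 h8]
  have w5 : l9 5 = l4 5 := by
    rw [b9 5 (by norm_num), b8 5 (by norm_num), b7 5 (by norm_num), b6 5 (by norm_num), b5 5 (by norm_num)]
  have w6 : l9 6 = l5 6 := by
    rw [b9 6 (by norm_num), b8 6 (by norm_num), b7 6 (by norm_num), b6 6 (by norm_num)]
  have w9 : l9 9 = l6 9 := by rw [b9 9 (by norm_num), b8 9 (by norm_num), b7 9 (by norm_num)]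
  have w8 : l9 8 = l7 8 := by rw [b9 8 (by norm_num), b8 8 (by norm_num)]
  have w7 : l9 7 = l8 7 := by rw [b9 7 (by norm_num)]
  have w37 : l9 37 = l1 37 := by
    rw [b9 37 (by norm_num), b8 37 (by norm_num), b7 37 (by norm_num), b6 37 (by norm_num), b5 37 (by norm_num),
      b4 37 (by norm_num), b3 37 (by norm_num), b2 37 (by norm_num)]
  have w38 : l9 38 = l2 38 := by
    rw [b9 38 (by norm_num), b8 38 (by norm_num), b7 38 (by norm_num), b6 38 (by norm_num), b5 38 (by norm_num),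
      b4 38 (by norm_num), b3 38 (by norm_num)]
  have w39 : l9 39 = l3 39 := by
    rw [b9 39 (by norm_num), q8, v39]
  refine ⟨l9, ?_, ?_, ?_, v4, ?_, ?_, ?_, ?_, ?_⟩
  · rw [sem_cons, e1, sem_cons, e2, sem_cons, e3, sem_cons, e4, sem_cons, e5, sem_cons, e6, sem_cons, e7, sem_cons, e8,
      sem_cons, e9, sem_nil]
  · intro j
    by_cases j37 : j = 37
    · rw [j37, w37, a1]; exact Nat.mod_lt _ hpos
    by_cases j38 : j = 38
    · rw [j38, w38, a2]; exact Nat.mod_lt _ hpos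
    by_cases j39 : j = 39
    · rw [j39, w39, a3]; exact Nat.mod_lt _ hpos
    by_cases j5 : j = 5
    · rw [j5, w5, a4]; exact Nat.mod_lt _ hpos
    by_cases j6 : j = 6
    · rw [j6, w6, a5]; exact Nat.mod_lt _ hpos
    by_cases j9 : j = 9
    · rw [j9, w9, a6]; exact Nat.mod_lt _ hpos
    by_cases j8 : j = 8
    · rw [j8, w8, a7]; exact Nat.mod_lt _ hpos
    by_cases j7 : j = 7
    · rw [j7, w7, a8]; exact Nat.mod_lt _ hpos
    by_cases j4 : j = 4
    · rw [j4, a9]; exact Nat.mod_lt _ hpos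
    rw [o9 j j37 j38 j39 j5 j6 j9 j8 j7 j4]
    exact hl j
  · intro j hj
    exact o9 j (by omega) (by omega) (by omega) (by omega) (by omega) (by omega) (by omega) (by omega) (by omega)
  · rw [w5, v5]
  · rw [w6, v6]
  · rw [w7, v7]
  · rw [w8, v8]
  · rw [w9, v9]

end

/-- Extension of a circuit by one gate. -/
theorem circ_ext {α : Type} {cl : List α → ℕ → ℕ} {rs : List α → ℕ → ℕ → ℕ} {w : List α} {p f : ℕ → ℕ} {he hm w1 T : ℕ}
    {W : ℕ → ℕ} (hT : 1 ≤ T) (h5 : 0 < p 5) (h : Circ cl rs w p f he hm w1 T W) (he' hm' e m : ℕ)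
    (h1 : ∀ j, dg (p 12) he' j = if j = T + 1 then e else dg (p 12) he j)
    (h2 : ∀ j, dg (p 12) hm' j = if j = T + 1 then m else dg (p 12) hm j) (hm1 : 1 ≤ m) (hmT : m ≤ T) :
    Circ cl rs w p f he' hm' w1 (T + 1) (Function.update W (T + 1) (GG cl rs w p f e (W T) (W m))) := by
  obtain ⟨a1, a2, a3⟩ := h
  refine ⟨?_, ?_, ?_⟩
  · rw [Function.update_of_ne (by omega)]; exact a1
  · intro t ht1 ht2
    by_cases ht : t = T + 1
    · subst ht
      rw [Function.update_self]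
      exact Nat.mod_lt _ h5
    · rw [Function.update_of_ne ht]
      exact a2 t ht1 (by omega)
  · intro t ht1 ht2
    by_cases ht : t = T + 1
    · subst ht
      rw [Function.update_self, h1, h2, if_pos rfl, if_pos rfl]
      refine ⟨hm1, by omega, ?_⟩
      rw [Function.update_of_ne (by omega), Function.update_of_ne (by omega), Nat.add_sub_cancel]
    · obtain ⟨b1, b2, b3⟩ := a3 t ht1 (by omega)
      rw [Function.update_of_ne ht, h1, h2, if_neg ht, if_neg ht]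
      refine ⟨b1, b2, ?_⟩
      rw [Function.update_of_ne (by omega), Function.update_of_ne (by omega)]
      exact b3

/-- Digits above the range do not matter. -/
theorem circ_same {α : Type} {cl : List α → ℕ → ℕ} {rs : List α → ℕ → ℕ → ℕ} {w : List α} {p f : ℕ → ℕ} {he hm w1 T : ℕ}
    {W : ℕ → ℕ} (h : Circ cl rs w p f he hm w1 T W) (he' hm' : ℕ)
    (h1 : ∀ j ≤ T, dg (p 12) he' j = dg (p 12) he j)
    (h2 : ∀ j ≤ T, dg (p 12) hm' j = dg (p 12) hm j) : Circ cl rs w p f he' hm' w1 T W := by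
  obtain ⟨a1, a2, a3⟩ := h
  refine ⟨a1, a2, fun t ht1 ht2 => ?_⟩
  rw [h1 t ht2, h2 t ht2]
  exact a3 t ht1 ht2

theorem scode_lt (B : ℕ) : ∀ js : List ℕ, (∀ j ∈ js, j < B) → scode B js < B ^ js.length
  | [], _ => by simp [scode]
  | j :: js, h => by
    have h1 := scode_lt B js fun x hx => h x (List.mem_cons_of_mem _ hx)
    have h2 := h j List.mem_cons_self
    have h3 : (scode B js + 1) * B ≤ B ^ js.length * B := Nat.mul_le_mul_right _ h1
    show scode B js * B + j < B ^ (js.length + 1)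
    rw [pow_succ]
    calc scode B js * B + j < scode B js * B + B := by omega
      _ = (scode B js + 1) * B := by ring
      _ ≤ _ := h3

theorem mP9 : StF3 → StP7 → StP8 → StP9 := by
  intro hF3 hP7 hP8 α cl rs w p f cb r g l a n hp ho hl hg hn hI
  obtain ⟨W, js, hT1, hTn, hC, h5, h6, h7, hjl, hjm, hnf, hf, h9⟩ := hI
  generalize hTdef : l 4 = T at *
  have hB : p 11 + 3 ≤ p 12 := hp.hBh
  have hBM : p 12 ^ (p 11 + 3) ≤ p 0 := hp.hBM
  have hB0 : 0 < p 12 := by omega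
  have hp2 : 2 ≤ p 2 := by have := hp.hD; omega
  have hp25 : 32 ≤ p 2 ^ 5 := by
    calc 32 = 2 ^ 5 := by norm_num
      _ ≤ p 2 ^ 5 := Nat.pow_le_pow_left hp2 5
  have h5M : p 5 < p 0 := hp.hQM
  have h25 : p 2 ^ 5 ≤ p 5 := hp.hM0
  have hM5 : 5 ≤ p 0 := by omega
  have h5pos : 0 < p 5 := by omega
  have hTk : T + 1 < p 11 + 3 := by omega
  have hkM : p 11 + 3 ≤ p 0 := by
    calc p 11 + 3 ≤ p 12 := hB
      _ ≤ p 12 ^ (p 11 + 3) := Nat.le_self_pow (by omega) _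
      _ ≤ p 0 := hBM
  have h3p2 : 3 * p 2 ≤ p 5 := by
    calc 3 * p 2 ≤ 2 ^ 4 * p 2 := Nat.mul_le_mul_right _ (by norm_num)
      _ ≤ p 2 ^ 4 * p 2 := Nat.mul_le_mul_right _ (Nat.pow_le_pow_left hp2 4)
      _ = p 2 ^ 5 := by ring
      _ ≤ p 5 := h25
  have hsd : ∀ x d, x < p 12 ^ (p 11 + 3) → d < p 12 → sdc (p 0) (p 12) x (T + 1) d < p 12 ^ (p 11 + 3) ∧
      sdc (p 0) (p 12) x (T + 1) d % p 0 = sdc (p 0) (p 12) x (T + 1) d ∧
      ∀ j, dg (p 12) (sdc (p 0) (p 12) x (T + 1) d) j = if j = T + 1 then d else dg (p 12) x j := by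
    intro x d hx hd
    obtain ⟨c1, c2, c3⟩ := hF3 (p 12) x (T + 1) d (p 11 + 3) hB0 hd hTk hx
    have c4 := c3 (p 0) ((Nat.pow_le_pow_right hB0 hTk.le).trans hBM)
    rw [c4]
    exact ⟨c1, Nat.mod_eq_of_lt (c1.trans_le hBM), c2⟩
  -- first assignments
  obtain ⟨l1, e1, a1, b1⟩ := asg_step w p cb r
    (fun _ v => sdc (pa 0 v) (pa 12 v) (lo 5 v) (lo 4 v + 1) 2) 5 l g
  obtain ⟨l2, e2, a2, b2⟩ := asg_step w p cb r
    (fun _ v => sdc (pa 0 v) (pa 12 v) (lo 6 v) (lo 4 v + 1) 1) 6 l1 g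
  obtain ⟨s1, s2, s3⟩ := hsd (l 5) 2 h5 (by omega)
  obtain ⟨t1, t2, t3⟩ := hsd (l 6) 1 h6 (by omega)
  rw [lo_ctx _ _ _ _ _ (by norm_num), lo_ctx _ _ _ _ _ (by norm_num), pa_ctx, pa_ctx, hTdef, s2] at a1
  rw [lo_ctx _ _ _ _ _ (by norm_num), lo_ctx _ _ _ _ _ (by norm_num), pa_ctx, pa_ctx, b1 6 (by norm_num),
    b1 4 (by norm_num), hTdef, t2] at a2
  have l25 : l2 5 = sdc (p 0) (p 12) (l 5) (T + 1) 2 := by rw [b2 5 (by norm_num), a1]
  have l2o : ∀ j, j ≠ 5 → j ≠ 6 → l2 j = l j := fun j h1 h2 => by rw [b2 j h2, b1 j h1]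
  have hl2 : ∀ i, l2 i < p 0 := by
    intro i
    by_cases i5 : i = 5
    · rw [i5, l25]; exact s1.trans_le hBM
    by_cases i6 : i = 6
    · rw [i6, a2]; exact t1.trans_le hBM
    rw [l2o i i5 i6]
    exact hl i
  have hC1 := circ_ext hT1 h5pos hC (l2 5) (l2 6) 2 1 (by rw [l25]; exact s3) (by rw [a2]; exact t3) le_rfl hT1
  have l24 : l2 4 = T := by rw [l2o 4 (by norm_num) (by norm_num), hTdef]
  have l23 : l2 3 = l 3 := l2o 3 (by norm_num) (by norm_num)
  obtain ⟨q1, q2, q3, q4⟩ := hP7 cl rs w p f cb r g l2 _ hp ho hl2 hg (by rw [l24]; have := hp.hkD; omega)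
    (by rw [l24]; omega) (by rw [l24, l23]; exact hC1)
  obtain ⟨l3, hl3⟩ : ∃ l3, l3 = (sem w p 40 cb r (outP cl rs) (l2, g)).1 := ⟨_, rfl⟩
  have e3 : sem w p 40 cb r (outP cl rs) (l2, g) = (l3, g) := Prod.ext hl3.symm q1
  rw [← hl3] at q2 q3 q4
  rw [l24, Function.update_self] at q4
  -- the tail
  obtain ⟨L, eL, LM, L03, L4, L5, L6, L7, L8, L9⟩ := tail_sem w p cb r hM5 l3 g q2
  have hfin : sem w p 40 cb r (hstP cl rs) (l, g) = (L, g) := by
    unfold hstP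
    rw [sem_cons, e1, sem_cons, e2, sem_cons, e3, eL]
  rw [hfin]
  refine ⟨rfl, LM, ?_, ?_⟩
  · intro i hi
    show L i = l i
    rw [L03 i hi, q3 i (Or.inl (by omega)), l2o i (by omega) (by omega)]
  show HInv cl rs w p f L _ (n + 1)
  have m4 : l3 4 = T := by rw [q3 4 (Or.inl (by norm_num)), l24]
  have m5 : l3 5 = sdc (p 0) (p 12) (l 5) (T + 1) 2 := by rw [q3 5 (Or.inl (by norm_num)), l25]
  have m6 : l3 6 = sdc (p 0) (p 12) (l 6) (T + 1) 1 := by rw [q3 6 (Or.inl (by norm_num)), a2]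
  have m7 : l3 7 = scode (p 12) js := by
    rw [q3 7 (Or.inl (by norm_num)), l2o 7 (by norm_num) (by norm_num), h7]
  have m8 : l3 8 = l 8 := by rw [q3 8 (Or.inl (by norm_num)), l2o 8 (by norm_num) (by norm_num)]
  have m9 : l3 9 = l 9 := by rw [q3 9 (Or.inl (by norm_num)), l2o 9 (by norm_num) (by norm_num)]
  have m3 : L 3 = l 3 := by rw [L03 3 (by norm_num), q3 3 (Or.inl (by norm_num)), l23]
  simp only [m4, m5, m6, m7, m8, m9] at L4 L5 L6 L7 L8 L9
  -- bounds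
  have hTlt : T < p 12 := by omega
  have hjB : ∀ j ∈ js, j < p 12 := fun j hj => ((hjm j hj).2).trans_lt hTlt
  have hscode : scode (p 12) js < p 0 := by
    refine (scode_lt _ js hjB).trans_le ((Nat.pow_le_pow_right hB0 ?_).trans hBM)
    omega
  obtain ⟨k1, k2, k3⟩ := hP8 (p 3) (p 2) (cl w) (rs w) f ho.1 hp.hcl hp.hrs hp.hD
  have hdg : ∀ x i, dg (p 2) x i < p 2 := fun x i => Nat.mod_lt _ (by omega)
  have hV : GG cl rs w p f 2 (W T) (W 1) =
      ((if dg (p 2) (W T) 2 = 0 then 2 else (popf (p 3) (cl w) (rs w) f (dg (p 2) (W T) 0) (dg (p 2) (W T) 1)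
        (dg (p 2) (W T) 2 - 1)).t) + 3 * (popf (p 3) (cl w) (rs w) f (dg (p 2) (W T) 0) (dg (p 2) (W T) 1)
        (dg (p 2) (W T) 2 - 1)).r) % p 5 := by
    unfold GG Gam
    rw [if_neg (by norm_num), if_neg (by norm_num)]
  obtain ⟨P, hP⟩ : ∃ P, P = popf (p 3) (cl w) (rs w) f (dg (p 2) (W T) 0) (dg (p 2) (W T) 1)
        (dg (p 2) (W T) 2 - 1) := ⟨_, rfl⟩
  rw [← hP] at hV
  obtain ⟨u1, u2, u3, u4, u5⟩ := k2 (dg (p 2) (W T) 0) (dg (p 2) (W T) 1) (dg (p 2) (W T) 2 - 1)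
    (by have := hdg (W T) 2; omega) (hdg _ _)
  rw [← hP] at u1 u2 u3 u4 u5
  have hV2 : l3 12 = (if dg (p 2) (W T) 2 = 0 then 2 else P.t) + 3 * P.r := by
    rw [q4, hV]
    apply Nat.mod_eq_of_lt
    split_ifs <;> omega
  have hV3 : l3 12 % 3 = (if dg (p 2) (W T) 2 = 0 then 2 else P.t) := by
    rw [hV2]; split_ifs <;> omega
  have hV4 : l3 12 / 3 = P.r := by
    rw [hV2]; split_ifs <;> omega
  by_cases hfin2 : a.fin = true
  · -- finished
    have hl8 : l 8 ≠ 0 := hf hfin2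
    have hact : actn (l 8) (scode (p 12) js) (l3 12) = 0 := by
      unfold actn; rw [if_pos hl8]
    rw [hact] at L4 L5 L6 L7 L8 L9
    simp only [OfNat.zero_ne_ofNat, zero_ne_one, or_self, if_false] at L4 L5 L6 L7 L8 L9
    have hms : mstep (p 3) (cl w) (rs w) f a = a := by unfold mstep; rw [if_pos hfin2]
    rw [hms]
    rw [Nat.mod_eq_of_lt (by omega)] at L4
    rw [s2] at L5
    rw [t2] at L6
    rw [Nat.mod_eq_of_lt hscode] at L7
    rw [Nat.mod_eq_of_lt (hl 8)] at L8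
    rw [Nat.mod_eq_of_lt (hl 9)] at L9
    refine ⟨W, js, ?_, ?_, ?_, ?_, ?_, L7, by omega, ?_, ?_, ?_, ?_⟩
    · rw [L4]; exact hT1
    · rw [L4]; omega
    · rw [L4, m3]
      refine circ_same hC _ _ (fun j hj => ?_) (fun j hj => ?_)
      · rw [L5, s3, if_neg (by omega)]
      · rw [L6, t3, if_neg (by omega)]
    · rw [L5]; exact s1
    · rw [L6]; exact t1
    · rw [L4]; exact hjm
    · intro h; rw [hfin2] at h; exact absurd h (by simp)
    · intro _; rw [L8]; exact hl8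
    · rw [L9]; exact h9
  -- not finished
  have hfin3 : a.fin = false := by simpa using hfin2
  obtain ⟨g1, g2, g3, g4, g5, g6⟩ := hnf hfin3
  have h90 : l 9 = 0 := by rw [h9, g6]
  have hms : mstep (p 3) (cl w) (rs w) f a =
      if a.q = 0 then { a with fin := true }
      else if P.t = 1 then
        { s := P.r
          h := (walk (p 3) (cl w) (rs w) f P.r 0).c
          q := (walk (p 3) (cl w) (rs w) f P.r 0).s
          st := (a.s, P.h) :: a.st
          res := 0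
          fin := false }
      else
        match a.st with
        | [] => { a with res := P.r + 1, fin := true }
        | x :: st' => { s := x.1, h := x.2, q := P.r + 1, st := st', res := 0, fin := false } := by
    unfold mstep
    rw [if_neg hfin2, hP, g2, g3, g4]
    obtain ⟨_, _, _, st, _, _⟩ := a
    cases st <;> rfl
  rw [hms]
  by_cases hq : a.q = 0
  · -- undefined value
    have hact : actn (l 8) (scode (p 12) js) (l3 12) = 4 := by
      unfold actn; rw [g1, hV3, g4, if_pos hq]; simp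
    rw [hact] at L4 L5 L6 L7 L8 L9
    norm_num at L4 L5 L6 L7 L8 L9
    rw [if_pos hq]
    rw [Nat.mod_eq_of_lt (by omega)] at L4
    rw [s2] at L5
    rw [t2] at L6
    rw [Nat.mod_eq_of_lt hscode] at L7
    rw [Nat.mod_eq_of_lt (by omega)] at L8
    rw [Nat.mod_eq_of_lt (hl 9)] at L9
    refine ⟨W, js, ?_, ?_, ?_, ?_, ?_, L7, by omega, ?_, ?_, ?_, ?_⟩
    · rw [L4]; exact hT1
    · rw [L4]; omega
    · rw [L4, m3]
      refine circ_same hC _ _ (fun j hj => ?_) (fun j hj => ?_)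
      · rw [L5, s3, if_neg (by omega)]
      · rw [L6, t3, if_neg (by omega)]
    · rw [L5]; exact s1
    · rw [L6]; exact t1
    · rw [L4]; exact hjm
    · intro h; exact absurd h (by simp)
    · intro _; rw [L8]; norm_num
    · rw [L9]; exact h9
  rw [if_neg hq]
  have hq2 : ¬ dg (p 2) (W T) 2 = 0 := by rw [g4]; exact hq
  rw [if_neg hq2] at hV3
  by_cases hPt : P.t = 1
  · -- a new segment
    have hact : actn (l 8) (scode (p 12) js) (l3 12) = 1 := by
      unfold actn; rw [g1, hV3, if_pos hPt]; simp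
    rw [hact] at L4 L5 L6 L7 L8 L9
    norm_num at L4 L5 L6 L7 L8 L9
    rw [if_pos hPt]
    obtain ⟨v1, v2, v3⟩ := hsd _ 1 s1 (by omega)
    rw [Nat.mod_eq_of_lt (by omega)] at L4
    rw [v2] at L5
    rw [t2] at L6
    rw [Nat.mod_eq_of_lt (hl 8)] at L8
    rw [Nat.mod_eq_of_lt (hl 9)] at L9
    have hsc2 : scode (p 12) js * p 12 + (T + 1) < p 0 := by
      have h1 := scode_lt (p 12) ((T + 1) :: js) (by
        intro j hj
        rcases List.mem_cons.1 hj with h | h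
        · rw [h]; omega
        · exact hjB j h)
      refine h1.trans_le ((Nat.pow_le_pow_right hB0 ?_).trans hBM)
      simp only [List.length_cons]; omega
    rw [Nat.mod_eq_of_lt hsc2] at L7
    obtain ⟨W2, hW2⟩ : ∃ W2, W2 = Function.update W (T + 1) (GG cl rs w p f 1 (W T) (W 1)) := ⟨_, rfl⟩
    have hC2 := circ_ext hT1 h5pos hC (L 5) (L 6) 1 1 (fun j => by
      rw [L5, v3, s3]; split_ifs <;> rfl) (fun j => by rw [L6, t3]) le_rfl hT1
    rw [← hW2] at hC2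
    obtain ⟨x1, x2⟩ := k1 P.r 0
    have hWv : W2 (T + 1) = enc5 (p 2) P.r (walk (p 3) (cl w) (rs w) f P.r 0).c (walk (p 3) (cl w) (rs w) f P.r 0).s
        (dg (p 2) (W T) 0) P.h := by
      rw [hW2, Function.update_self]
      unfold GG Gam
      rw [if_pos rfl, ← hP]
      apply Nat.mod_eq_of_lt
      exact (k3 _ _ _ _ _ u1 (by have := hp.hD; omega) x2 (hdg _ _) u2).1.trans_le h25
    obtain ⟨_, y0, y1, y2, y3, y4⟩ := k3 _ _ _ _ _ u1
      (show (walk (p 3) (cl w) (rs w) f P.r 0).c < p 2 by have := hp.hD; omega) x2 (hdg (W T) 0) u2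
    rw [← hWv] at y0 y1 y2 y3 y4
    have hWo : ∀ j, j ≤ T → W2 j = W j := fun j hj => by rw [hW2, Function.update_of_ne (by omega)]
    refine ⟨W2, (T + 1) :: js, ?_, ?_, ?_, ?_, ?_, ?_, ?_, ?_, ?_, ?_, ?_⟩
    · rw [L4]; omega
    · rw [L4]; omega
    · rw [L4, m3]; exact hC2
    · rw [L5]; exact v1
    · rw [L6]; exact t1
    · rw [L7]; rfl
    · simp only [List.length_cons]; omega
    · intro j hj
      rw [L4]
      rcases List.mem_cons.1 hj with h | h
      · rw [h]; omega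
      · have := hjm j h; omega
    · intro _
      rw [L4]
      refine ⟨?_, y0, y1, y2, ?_, rfl⟩
      · rw [L8]; exact g1
      · show (a.s, P.h) :: a.st = _
        rw [List.map_cons, y3, y4, g2, g5]
        congr 1
        apply List.map_congr_left
        intro j hj
        rw [hWo j (hjm j hj).2]
    · intro h; exact absurd h (by simp)
    · rw [L9]; exact h90
  have hPt0 : P.t = 0 := by omega
  have hr1 := u4 hPt0
  rw [if_neg hPt, g5]
  rw [hPt0] at hV3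
  cases js with
  | nil =>
    have hact : actn (l 8) (scode (p 12) []) (l3 12) = 3 := by
      unfold actn; rw [g1, hV3]; simp [scode]
    rw [hact] at L4 L5 L6 L7 L8 L9
    norm_num at L4 L5 L6 L7 L8 L9
    rw [Nat.mod_eq_of_lt (by omega)] at L4
    rw [s2] at L5
    rw [t2] at L6
    rw [Nat.mod_eq_of_lt hscode] at L7
    rw [Nat.mod_eq_of_lt (by omega)] at L8
    rw [hV4, Nat.mod_eq_of_lt (by omega)] at L9
    refine ⟨W, [], ?_, ?_, ?_, ?_, ?_, L7, by simp, ?_, ?_, ?_, ?_⟩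
    · rw [L4]; exact hT1
    · rw [L4]; omega
    · rw [L4, m3]
      refine circ_same hC _ _ (fun j hj => ?_) (fun j hj => ?_)
      · rw [L5, s3, if_neg (by omega)]
      · rw [L6, t3, if_neg (by omega)]
    · rw [L5]; exact s1
    · rw [L6]; exact t1
    · simp
    · intro h; exact absurd h (by simp)
    · intro _; rw [L8]; norm_num
    · rw [L9]; rfl
  | cons j js =>
    have hj := hjm j List.mem_cons_self
    have hjB1 : j < p 12 := by omega
    have hne : scode (p 12) (j :: js) ≠ 0 := by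
      show scode (p 12) js * p 12 + j ≠ 0
      omega
    have hact : actn (l 8) (scode (p 12) (j :: js)) (l3 12) = 2 := by
      unfold actn; rw [g1, hV3]; simp [hne]
    rw [hact] at L4 L5 L6 L7 L8 L9
    norm_num at L4 L5 L6 L7 L8 L9
    have hmodj : scode (p 12) (j :: js) % p 12 = j := by
      show (scode (p 12) js * p 12 + j) % p 12 = j
      rw [Nat.mul_add_mod', Nat.mod_eq_of_lt hjB1]
    have hdivj : scode (p 12) (j :: js) / p 12 = scode (p 12) js := by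
      show (scode (p 12) js * p 12 + j) / p 12 = scode (p 12) js
      rw [Nat.mul_comm, Nat.mul_add_div hB0, Nat.div_eq_of_lt hjB1, Nat.add_zero]
    rw [hmodj] at L6
    rw [hdivj] at L7
    obtain ⟨v1, v2, v3⟩ := hsd _ 0 s1 (by omega)
    obtain ⟨z1, z2, z3⟩ := hsd _ j t1 hjB1
    rw [Nat.mod_eq_of_lt (by omega)] at L4
    rw [v2] at L5
    rw [z2] at L6
    rw [Nat.mod_eq_of_lt (by
      rw [← hdivj]; exact (Nat.div_le_self _ _).trans_lt hscode)] at L7
    rw [Nat.mod_eq_of_lt (hl 8)] at L8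
    rw [Nat.mod_eq_of_lt (hl 9)] at L9
    obtain ⟨W2, hW2⟩ : ∃ W2, W2 = Function.update W (T + 1) (GG cl rs w p f 0 (W T) (W j)) := ⟨_, rfl⟩
    have hC2 := circ_ext hT1 h5pos hC (L 5) (L 6) 0 j (fun i => by
      rw [L5, v3, s3]; split_ifs <;> rfl) (fun i => by
      rw [L6, z3, t3]; split_ifs <;> rfl) (by omega) hj.2
    rw [← hW2] at hC2
    have hWv : W2 (T + 1) = enc5 (p 2) (dg (p 2) (W j) 3) (dg (p 2) (W j) 4) (P.r + 1) 0 0 := by
      rw [hW2, Function.update_self]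
      unfold GG Gam
      rw [if_neg (by norm_num), if_pos rfl, ← hP]
      apply Nat.mod_eq_of_lt
      exact (k3 _ _ _ _ _ (hdg _ _) (hdg _ _) hr1 (by omega) (by omega)).1.trans_le h25
    obtain ⟨_, y0, y1, y2, y3, y4⟩ := k3 _ _ _ _ _ (hdg (W j) 3) (hdg (W j) 4) hr1
      (show 0 < p 2 by omega) (show 0 < p 2 by omega)
    rw [← hWv] at y0 y1 y2 y3 y4
    have hWo : ∀ i, i ≤ T → W2 i = W i := fun i hi => by rw [hW2, Function.update_of_ne (by omega)]
    refine ⟨W2, js, ?_, ?_, ?_, ?_, ?_, L7, ?_, ?_, ?_, ?_, ?_⟩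
    · rw [L4]; omega
    · rw [L4]; omega
    · rw [L4, m3]; exact hC2
    · rw [L5]; exact v1
    · rw [L6]; exact z1
    · simp only [List.length_cons] at hjl; omega
    · intro i hi
      rw [L4]
      have := hjm i (List.mem_cons_of_mem _ hi)
      omega
    · intro _
      rw [L4]
      refine ⟨?_, y0, y1, y2, ?_, rfl⟩
      · rw [L8]; exact g1
      · show js.map _ = js.map _
        apply List.map_congr_left
        intro i hi
        rw [hWo i (hjm i (List.mem_cons_of_mem _ hi)).2]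
    · intro h; exact absurd h (by simp)
    · rw [L9]; exact h90

end Pool.Agent.Helper83.PT.N51
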