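import Pool.Agent.Helper73.DC.Final
import Pool.Agent.Helper83.PT.P0
import Pool.Agent.Helper83.PT.P1
import Pool.Agent.Helper83.PT.P2
import Pool.Agent.Helper83.PT.P3
import Pool.Agent.Helper83.PT.P4
import Pool.Agent.Helper83.PT.P5
import Pool.Agent.Helper83.PT.P6
import Pool.Agent.Helper83.PT.P7
import Pool.Agent.Helper83.PT.P9
import Pool.Agent.Helper83.PT.P10
import Pool.Agent.Helper83.PT.M_A3
import Pool.Agent.Helper83.PT.M_W
import Pool.Agent.Helper83.PT.M_G8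
import Pool.Agent.Helper48.PT.M_M1
import Pool.Agent.Helper57.PT.M_M2
import Pool.Agent.Helper89.PT.M_M3
import Pool.Agent.Helper79.PT.M_M4
import Pool.Agent.Helper82.PT.M_A1
import Pool.Agent.Helper82.PT.M_A2
import Pool.Agent.Helper12.PT.M_A4
import Pool.Agent.Helper26.PT.M_A5
import Pool.Agent.Helper91.PT.M_G4
import Pool.Agent.Helper78.PT.M_RK

set_option autoImplicit false

/-! Project PT (helper83), MP_26f0da_lc: assembly of the modules, first part. -/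

namespace Pool.Agent.Helper83.PT

open Pool.Agent.Helper73.DC (StL1 StL2 StL3 StL4 StL5 StL6 StM7 StF6 StF7 StTOP StSS StSC StG1 StG2 StG3 StG6 MPDA DSPACE
  tL1 tL2 tL3 tL4 tL5 tL6 tM5 tM6 tM7 tF3 tF6 tF7 tTOP tP8 tG1 tG3)

theorem tM1 : StM1 := N48.mM1
theorem tM2 : StM2 := N57.mM2 tM1
theorem tM3 : StM3 := Helper89.mM3
theorem tM4 : StM4 := Helper79.mM4 tL1 tL2 tL3 tL4 tL5 tL6
theorem tP1 : StP1 := N82.mP1
theorem tP2 : StP2 := N82.mP2 tP1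
theorem tP3 : StP3 := N28.mP3 tP1 tP2
theorem tP4 : StP4 := N34.mP4 tP3 tM3
theorem tP5 : StP5 := N36.mP5 tP4 tM3 tM5
theorem tP6 : StP6 := N93.mP6 tP5 tM2 tM6
theorem tP7 : StP7 := N95.mP7 tP6
theorem tP9 : StP9 := N51.mP9 tF3 tP7 tP8
theorem tP10 : StP10 := N47.mP10 tP1 tP8 tP9
theorem tP0 : StP0 := N38.mP0 tL1 tL2 tL3 tL4 tL5 tL6 tM4 tM5
theorem tG6 : StG6 := Pool.Agent.Helper16.DC.mG6
theorem tA1 : StA1 := Helper82.mA1
theorem tA2 : StA2 := Helper82.mA2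
theorem tA3 : StA3 := N79.mA3 tL1 tL2 tL3 tL4 tL5
theorem tA4 : StA4 := Helper12.mA4 Pool.Agent.Helper37.DC.mSS Pool.Agent.Helper37.DC.mSC tG6
theorem tABS : StABS := N26.mA5 tP0 tP10 tM7 tF6 tF7 tTOP tA1 tA2 tA3 tA4 tL1 tL2 tL3 tL4 tL5
theorem tW : StW := NW.mW tG3
theorem tG4 : StG4 := Helper91.mG4 tG3 tW
theorem tRK : StRK := Helper78.mRK tG3 tW
theorem tG5 : Pool.Agent.Helper73.DC.StG5 := Pool.Agent.Helper6.DC.mG5 tG3
theorem tG2 : StG2 := Pool.Agent.Helper72.DC.mG2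

end Pool.Agent.Helper83.PT
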