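import Pool.Agent.Helper83.PT.St7

set_option autoImplicit false

namespace Pool.Agent.Helper83.PT.NAS

open Pool.Agent.Helper73.DC Filter Topology

theorem mAS : StAS := by
  intro c
  have h1 := (tendsto_pow_const_div_const_pow_of_one_lt c (show (1 : ℝ) < 2 by norm_num)).const_mul (c : ℝ)
  rw [mul_zero] at h1
  obtain ⟨L0, hL0⟩ := eventually_atTop.1 (h1.eventually (gt_mem_nhds (show (0 : ℝ) < 1 by norm_num)))
  refine ⟨c * L0 ^ c + c, fun n => ?_⟩
  set L := Nat.log 2 n with hL
  by_cases h : L0 ≤ L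
  · have h2 := hL0 L h
    have h3 : (c : ℝ) * (L : ℝ) ^ c < 2 ^ L := by
      rw [← mul_div_assoc, div_lt_one (by positivity)] at h2
      exact h2
    have h4 : c * L ^ c < 2 ^ L := by exact_mod_cast h3
    have h5 : 2 ^ L ≤ n + 1 := by
      rcases Nat.eq_zero_or_pos n with h0 | h0
      · rw [hL, h0]; simp
      · exact (Nat.pow_log_le_self 2 (by omega)).trans (Nat.le_succ n)
    have : c * L ^ c ≤ n + 1 := by omega
    omega
  · have h6 : c * L ^ c ≤ c * L0 ^ c := Nat.mul_le_mul_left _ (Nat.pow_le_pow_left (by omega) _)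
    omega

end Pool.Agent.Helper83.PT.NAS
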