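import Pool.Agent.Helper83.PT.Final
import Pool.Agent.Helper83.PT.St7
import Pool.Agent.Helper83.PT.M_AS
import Pool.Agent.Helper73.PT.M_CN1
import Pool.Agent.Helper73.PT.M_DP1
import Pool.Agent.Helper41.PT.M_CN2
import Pool.Agent.Helper72.PT.M_MT
import Pool.Agent.Helper8.PT.M_DP2
import Pool.Agent.Helper24.PT.M_DT

set_option autoImplicit false

/-! Project PT (helper83), MP_26f0da_lc: assembly of the modules, second part. -/

namespace Pool.Agent.Helper83.PT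

open Pool.Agent.Helper73.DC (tL1 tL2 tL3 tL4 tL5 tL6 tG1 tG3)

theorem tG8 : StG8 := NG8.mG8 tABS tG1 tG2 tG3 tG5 tG6 tW tG4 tRK
theorem tCN1 : StCN1 := H73.mCN1
theorem tCN2 : StCN2 := Helper41.mCN2
theorem tAS : StAS := NAS.mAS
theorem tMT : StMT := Helper72.mMT tG8 tCN1 tCN2 tAS tL1 tL2 tL3 tL4 tL5 tL6
theorem tDP1 : StDP1 := H73D.mDP1
theorem tDP2 : StDP2 := Helper8.mDP2
theorem tDT : StDT := N24.mDT tMT tDP1 tDP2

end Pool.Agent.Helper83.PT
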