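import Pool.Agent.Helper83.PT.St7
import Pool.Agent.Helper12.DC.M_G3

set_option autoImplicit false

/-! Project PT (helper83), module G8 (adapted from module G7 of helper24): general start configurations. -/

namespace Pool.Agent.Helper83.PT.NG8

open Pool.Agent.Helper73.DC
open Finset
open scoped Classical

theorem run_lift {α : Type} (M : MPDA α) (w : List α) : ∀ (l : ℕ) (q : M.Q) (p : Fin M.k → ℕ) (s : List M.Γ)
    (q' : M.Q) (p' : Fin M.k → ℕ) (s' : List M.Γ) (u : Bool), M.Run w l (q, p, s) (q', p', s') →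
    ∃ u' : Bool, (aug M).Run w l ((q, u), p, s) ((q', u'), p', s') := by
  intro l
  induction l with
  | zero =>
    intro q p s q' p' s' u h
    have h' : (q, p, s) = (q', p', s') := h
    obtain ⟨rfl, h2⟩ := Prod.mk.inj h'
    obtain ⟨rfl, rfl⟩ := Prod.mk.inj h2
    exact ⟨u, rfl⟩
  | succ l ih =>
    intro q p s q' p' s' u h
    obtain ⟨c', hs, hr⟩ := h
    cases hs with
    | mk _ q1 _ d Z s1 γ htr =>
      obtain ⟨u', hu⟩ := ih q1 (nps w d p) (γ ++ s1) q' p' s' (fl γ u) hr
      refine ⟨u', ((q1, fl γ u), nps w d p, γ ++ s1), ?_, hu⟩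
      refine MPDA.Step.mk (M := aug M) (w := w) (q, u) (q1, fl γ u) p d Z s1 γ ?_
      show (match M.tr q Z (fun j => symAt w (p j)) with
        | none => none
        | some (q', d, γ) => some ((q', fl γ u), d, γ)) = some ((q1, fl γ u), d, γ)
      rw [htr]

theorem trunF_run {α : Type} (M : MPDA α) (w : List α) {t : ℕ}
    {a b : Bool × M.Q × (Fin M.k → ℕ) × List M.Γ} (h : TRunF M w t a b) : ∃ l, M.Run w l a.2 b.2 := by
  induction h with
  | refl c => exact ⟨0, rfl⟩
  | step t u q q' p d Z s γ c hna htr _ ih =>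
    obtain ⟨l, hl⟩ := ih
    exact ⟨l + 1, _, MPDA.Step.mk q q' p d Z s γ htr, hl⟩

theorem ev_reweight {lf cl : ℕ → ℕ} {rs : ℕ → ℕ → ℕ} {wt : ℕ → ℕ} (wt' : ℕ → ℕ) {x r m n : ℕ}
    (h : Ev lf cl rs wt x r m n) : ∃ m', Ev lf cl rs wt' x r m' n := by
  induction h with
  | leaf x r h => exact ⟨_, Ev.leaf x r h⟩
  | node x r1 m1 n1 r2 m2 n2 h _ _ ih1 ih2 =>
    obtain ⟨a, ha⟩ := ih1
    obtain ⟨b, hb⟩ := ih2
    exact ⟨_, Ev.node x r1 a n1 r2 b n2 h ha hb⟩

theorem turns_le {α : Type} (M : MPDA α) (w : List α) {m : ℕ}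
    {a b : Bool × M.Q × (Fin M.k → ℕ) × List M.Γ} (h : TRunF M w m a b) :
    ∀ (t : ℕ) (b' : Bool × M.Q × (Fin M.k → ℕ) × List M.Γ), M.acc b'.2.1 → TRun M w t a b' → m ≤ t := by
  induction h with
  | refl c => exact fun t _ _ _ => Nat.zero_le t
  | step m u q q' p d Z s γ c hna htr _ ih =>
    intro t b' hb hr
    cases hr with
    | refl _ => exact absurd hb hna
    | step t' _ _ q1 _ d1 _ _ γ1 _ htr1 hr1 =>
      rw [htr] at htr1
      obtain ⟨h1, h2⟩ := Prod.mk.inj (Option.some.inj htr1)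
      obtain ⟨h2, h3⟩ := Prod.mk.inj h2
      subst h1 h2 h3
      exact Nat.add_le_add_left (ih t' b' hb hr1) _

theorem trun_run {α : Type} (M : MPDA α) (w : List α) {t : ℕ}
    {a b : Bool × M.Q × (Fin M.k → ℕ) × List M.Γ} (h : TRun M w t a b) : ∃ l, M.Run w l a.2 b.2 := by
  induction h with
  | refl c => exact ⟨0, rfl⟩
  | step t u q q' p d Z s γ c htr _ ih =>
    obtain ⟨l, hl⟩ := ih
    exact ⟨l + 1, _, MPDA.Step.mk q q' p d Z s γ htr, hl⟩

theorem trunF_trun {α : Type} (M : MPDA α) (w : List α) {t : ℕ}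
    {a b : Bool × M.Q × (Fin M.k → ℕ) × List M.Γ} (h : TRunF M w t a b) : TRun M w t a b := by
  induction h with
  | refl c => exact TRun.refl c
  | step t u q q' p d Z s γ c hna htr _ ih => exact TRun.step t u q q' p d Z s γ c htr ih

theorem mG8 : StABS → StG1 → StG2 → StG3 → Pool.Agent.Helper73.DC.StG5 → StG6 → StW → StG4 → StRK → StG8 := by
  intro hABS h1 h2 _ h5 _ _ h4 hRK α _ M c st p0 hst hp0 hp0b hM
  obtain ⟨T, K, num, qn, hd⟩ := h2 (aug M)
  obtain ⟨hcl, hrs, hlf, hc, e1, hb⟩ := h1 (α := α) T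
  have hz : ([M.z0] : List M.Γ).length ≤ K := hd.hK
  have hnode : ∀ w : List α, num (st w.length, false) [M.z0] * (w.length + 2) ^ T.k + pcd w.length (p0 w.length) =
      mnd (aug M) num w.length (st w.length, false) [M.z0] (p0 w.length) := by
    intro w
    unfold mnd
    rw [hd.hk]
    rfl
  have hfwd : ∀ (w : List α) (t : ℕ), AccFrom M w (st w.length) (p0 w.length) t → ∃ m k,
      Ev (T.lf w) (T.cl w) (T.rs w) (wtT M T K num w)
        (num (st w.length, false) [M.z0] * (w.length + 2) ^ T.k + pcd w.length (p0 w.length)) 0 m k := by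
    rintro w t ⟨u, q, p, s, hq, hr0⟩
    obtain ⟨l, hr⟩ := trun_run M w hr0
    obtain ⟨u', hu⟩ := run_lift M w l _ _ _ _ _ _ false hr
    obtain ⟨m, k, _, hE⟩ := (h5 (aug M) T K num qn hd w l (st w.length, false) [M.z0] (p0 w.length) hz
      (fun j => hp0b _ j)).1 (q, u') p s hq hu
    rw [← hnode] at hE
    obtain ⟨m', hm'⟩ := ev_reweight (wtT M T K num w) hE
    exact ⟨m', k, hm'⟩
  have hbwd : ∀ (w : List α) (m k : ℕ),
      Ev (T.lf w) (T.cl w) (T.rs w) (wtT M T K num w)
        (num (st w.length, false) [M.z0] * (w.length + 2) ^ T.k + pcd w.length (p0 w.length)) 0 m k →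
        ∃ (u' : Bool) (q' : M.Q) (p' : Fin M.k → ℕ) (s' : List M.Γ), M.acc q' ∧
          TRunF M w m (false, st w.length, p0 w.length, [M.z0]) (u', q', p', s') := by
    intro w m k hE
    obtain ⟨u', q', p', s', hq, hr⟩ := (h4 M T K num qn hd w _ 0 m k hE (st w.length) false [M.z0] (p0 w.length) hz
      (fun j => hp0b _ j) (hnode w)).1 rfl []
    exact ⟨u', q', p', s', hq, hr⟩
  have hEc : E2 (α := α) (fun w _ =>
      num (st w.length, false) [M.z0] * (w.length + 2) ^ T.k + pcd w.length (p0 w.length)) :=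
    ((hst (fun q => num (q, false) [M.z0])).mul ((E2.len.add (E2.const 2)).powc T.k)).add hp0
  refine hABS {w : List α | ∃ t, AccFrom M w (st w.length) (p0 w.length) t} (fun w x => T.cl w x) (fun w x => T.lf w x)
    (fun w => wtT M T K num w) (fun w x r => T.rs w x r)
    (fun w => num (st w.length, false) [M.z0] * (w.length + 2) ^ T.k + pcd w.length (p0 w.length))
    e1 c hcl hrs hlf hEc ?_ ?_ ?_ ?_ ?_ ?_ ?_
  · exact fun w x => (hb w x 0).1
  · exact fun w x r => (hb w x r).2.1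
  · exact fun w x => (hb w x 0).2.2.1
  · intro w
    have h7 : num (st w.length, false) [M.z0] * (w.length + 2) ^ T.k + pcd w.length (p0 w.length) < T.ac w.length := by
      unfold MTab.ac MTab.P
      have h8 : pcd w.length (p0 w.length) < (w.length + 2) ^ T.k := by
        rw [hd.hk]
        exact Pool.Agent.Helper12.DC.g3_pcd_lt w.length (p0 w.length) (fun j => hp0b _ j)
      calc num (st w.length, false) [M.z0] * (w.length + 2) ^ T.k + pcd w.length (p0 w.length)
          < num (st w.length, false) [M.z0] * (w.length + 2) ^ T.k + (w.length + 2) ^ T.k := Nat.add_lt_add_left h8 _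
        _ = (num (st w.length, false) [M.z0] + 1) * (w.length + 2) ^ T.k := by ring
        _ ≤ T.F * (w.length + 2) ^ T.k := Nat.mul_le_mul_right _ (hd.hnum _ _ hz)
    exact h7.trans (hb w 0 0).2.2.2
  · exact fun w x r n h => hRK M T K num qn hd w x r n h
  · intro w
    refine ⟨fun ⟨t, ht⟩ => hfwd w t ht, fun ⟨m, k, hE⟩ => ?_⟩
    obtain ⟨u', q', p', s', hq, hr⟩ := hbwd w m k hE
    exact ⟨m, u', q', p', s', hq, trunF_trun M w hr⟩
  · intro w m n hE
    obtain ⟨u', q', p', s', hq, hr⟩ := hbwd w m n hE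
    exact hM w m ⟨u', q', p', s', hq, trunF_trun M w hr⟩

end Pool.Agent.Helper83.PT.NG8
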