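import Pool.Agent.Helper83.PT.St1

set_option autoImplicit false

/-! Project PT (helper83), MP_26f0da_lc: the program of one level.  As Prg.lean of DC; walkStep, walkP, popStep, popP, gamP, Gam, GG, Circ, HInv, Orc,
scode are those of DC.  Parameter 4 is now the number D of digits, parameter 13 the base B, parameter 5 is Q = B ^ D. -/

namespace Pool.Agent.Helper83.PT

open Pool.Agent.Helper73.DC
open Finset
open scoped Classical

section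
variable {α : Type} (cl : List α → ℕ → ℕ) (rs : List α → ℕ → ℕ → ℕ)

/-- One contribution `(a, b)` of an update. -/
noncomputable def stepB : Cmd α := sq [
  gamP cl rs,
  Cmd.glb (fun _ v => if pa 6 v = 0 then 0 else if lo 14 v = 3 then
    updn (pa 1 v) (pa 6 v) (pa 13 v) (pa 4 v) (gl v) (lo 16 v) (lo 17 v) (lo 18 v) (lo 19 v) (lo 20 v) else gl v),
  Cmd.asg 19 (fun _ v => lo 19 v + 1)]

/-- All `b` for one `a`. -/
noncomputable def stepA : Cmd α := sq [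
  Cmd.asg 19 (fun _ _ => 0),
  Cmd.rep (fun _ v => v 5) (stepB cl rs),
  Cmd.asg 18 (fun _ v => lo 18 v + 1)]

/-- All pairs `(a, b)`. -/
noncomputable def opP : Cmd α := sq [
  Cmd.asg 18 (fun _ _ => 0),
  Cmd.rep (fun _ v => v 5) (stepA cl rs)]

/-- The operation with the step number of variable 13. -/
noncomputable def stepY : Cmd α := sq [
  Cmd.asg 14 (fun _ v => (dcdc (pa 10 v) (pa 8 v) (pa 12 v) (lo 6 v) (pa 9 v) (lo 4 v + 1) 0 (lo 35 v) (lo 13 v)).k),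
  Cmd.asg 15 (fun _ v => (dcdc (pa 10 v) (pa 8 v) (pa 12 v) (lo 6 v) (pa 9 v) (lo 4 v + 1) 0 (lo 35 v) (lo 13 v)).t),
  Cmd.asg 16 (fun _ v => (dcdc (pa 10 v) (pa 8 v) (pa 12 v) (lo 6 v) (pa 9 v) (lo 4 v + 1) 0 (lo 35 v) (lo 13 v)).o),
  Cmd.asg 17 (fun _ v => (dcdc (pa 10 v) (pa 8 v) (pa 12 v) (lo 6 v) (pa 9 v) (lo 4 v + 1) 0 (lo 35 v) (lo 13 v)).s),
  Cmd.glb (fun _ v => if pa 6 v = 0 then 0 else
    if lo 14 v = 1 then addn (pa 1 v) (pa 6 v) (pa 13 v) (pa 4 v) (gl v) (lo 16 v) (lo 17 v) (lo 3 v)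
    else if lo 14 v = 2 then scln (pa 1 v) (pa 6 v) (pa 4 v) (pa 7 v) (gl v) (lo 16 v) else gl v),
  opP cl rs,
  Cmd.asg 13 (fun _ v => lo 13 v + 1)]

/-- The whole run for the gate `T + 1`, block 0, sign variable 35. -/
noncomputable def prunP : Cmd α := sq [
  Cmd.asg 13 (fun _ _ => 0),
  Cmd.rep (fun _ v => v 10) (stepY cl rs)]

/-- Extraction of digit number 10 of the outcome. -/
noncomputable def bitP : Cmd α := sq [
  Cmd.asg 11 (fun _ v => dg (pa 6 v) (gl v) (lo 10 v)),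
  Cmd.asg 35 (fun _ _ => 0),
  prunP cl rs,
  Cmd.asg 36 (fun _ v => (dg (pa 6 v) (gl v) (lo 10 v) + pa 6 v - lo 11 v) % pa 6 v),
  Cmd.asg 35 (fun _ _ => 1),
  prunP cl rs,
  Cmd.asg 12 (fun _ v => lo 12 v + lo 36 v * pw (pa 5 v) (pa 13 v) (lo 10 v)),
  Cmd.asg 10 (fun _ v => lo 10 v + 1)]

/-- The outcome of the query gate `T + 1` in variable 12. -/
noncomputable def outP : Cmd α := sq [
  Cmd.asg 12 (fun _ _ => 0), Cmd.asg 10 (fun _ _ => 0),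
  Cmd.rep (fun _ v => v 4) (bitP cl rs)]

/-- One event. -/
noncomputable def hstP : Cmd α := sq [
  Cmd.asg 5 (fun _ v => sdc (pa 0 v) (pa 12 v) (lo 5 v) (lo 4 v + 1) 2),
  Cmd.asg 6 (fun _ v => sdc (pa 0 v) (pa 12 v) (lo 6 v) (lo 4 v + 1) 1),
  outP cl rs,
  Cmd.asg 37 (fun _ v => lo 12 v % 3),
  Cmd.asg 38 (fun _ v => lo 12 v / 3),
  Cmd.asg 39 (fun _ v => if lo 8 v ≠ 0 then 0 else if lo 37 v = 1 then 1
    else if lo 37 v = 0 then (if lo 7 v ≠ 0 then 2 else 3) else 4),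
  Cmd.asg 5 (fun _ v => if lo 39 v = 1 then sdc (pa 0 v) (pa 12 v) (lo 5 v) (lo 4 v + 1) 1
    else if lo 39 v = 2 then sdc (pa 0 v) (pa 12 v) (lo 5 v) (lo 4 v + 1) 0 else lo 5 v),
  Cmd.asg 6 (fun _ v => if lo 39 v = 2 then sdc (pa 0 v) (pa 12 v) (lo 6 v) (lo 4 v + 1) (lo 7 v % pa 12 v) else lo 6 v),
  Cmd.asg 9 (fun _ v => if lo 39 v = 3 then lo 38 v + 1 else lo 9 v),
  Cmd.asg 8 (fun _ v => if lo 39 v = 3 ∨ lo 39 v = 4 then 1 else lo 8 v),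
  Cmd.asg 7 (fun _ v => if lo 39 v = 1 then lo 7 v * pa 12 v + (lo 4 v + 1)
    else if lo 39 v = 2 then lo 7 v / pa 12 v else lo 7 v),
  Cmd.asg 4 (fun _ v => if lo 39 v = 1 ∨ lo 39 v = 2 then lo 4 v + 1 else lo 4 v)]

/-- The program of one level. -/
noncomputable def body : Cmd α := sq [
  Cmd.call 0 2,
  Cmd.asg 21 (fun _ v => lo 0 v),
  Cmd.asg 25 (fun _ _ => 0),
  walkP cl rs,
  Cmd.asg 3 (fun _ v => enc5 (pa 2 v) (lo 0 v) (lo 22 v) (lo 23 v) 0 0),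
  Cmd.asg 4 (fun _ _ => 1),
  Cmd.rep (fun _ v => v 11) (hstP cl rs),
  Cmd.asg 1 (fun _ v => if lo 2 v ≠ 0 then lo 2 v else lo 9 v)]

end

/-- The conditions on the parameters. -/
structure Prm {α : Type} (cl : List α → ℕ → ℕ) (rs : List α → ℕ → ℕ → ℕ) (w : List α) (p : ℕ → ℕ) : Prop where
  hcl : ∀ x, cl w x < p 3
  hrs : ∀ x r, rs w x r < p 3
  hD : p 3 + 1 < p 2
  hB : 2 ≤ p 13
  hQ : p 5 = p 13 ^ p 4
  hM0 : p 2 ^ 5 ≤ p 5
  hQM : p 5 < p 0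
  hp : (p 6).Prime
  hBp : p 13 ≤ p 6
  hpL : 2 * (p 4 * p 13) + 1 < p 6
  hpM : p 6 < p 0
  ho : ∀ d < p 6 - 1, 0 < d → p 7 ^ d % p 6 ≠ 1
  ho' : p 7 ^ (p 6 - 1) % p 6 = 1 % p 6
  hG : p 1 = p 6 ^ (3 * p 4)
  hb : p 8 = 6 * (p 6 - 1)
  hbD : p 10 = p 8 ^ p 9
  hbM : p 10 < p 0
  hkD : p 11 + 1 ≤ p 9
  hBh : p 11 + 3 ≤ p 12
  hBM : p 12 ^ (p 11 + 3) ≤ p 0

end Pool.Agent.Helper83.PT
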