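import Pool.Agent.Helper73.DC.St8

set_option autoImplicit false

/-! Project PT (helper83), MP_26f0da_lc: deterministic two-way multihead pushdown automata with polylogarithmically many turns are in
logarithmic space.  The project reuses project DC (helper73); this file: catalytic evaluation with base-B digits (St4 of DC has bits).

Everything is as in St4 of DC, with `bt v i` (bit) replaced by `dg B v i` (digit in base B), `2 ^ L` by `B ^ D` (D digits), and the
multilinear indicator by the product of Lagrange factors; degree D * B in every block, so the condition is 2 (D B) < p - 1. -/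

namespace Pool.Agent.Helper83.PT

open Pool.Agent.Helper73.DC
open Finset
open scoped Classical

/-- The indicator polynomial of `a` (a number with `D` digits in base `B`): the product over all `j = i B + c`, `i < D`, `c < B`, `c` different
from the digit `a_i` of `a`, of `(x_i - c) (a_i - c)⁻¹`. -/
noncomputable def dl (p B D a : ℕ) (x : ℕ → ZMod p) : ZMod p :=
  ∏ j ∈ range (D * B), if j % B = dg B a (j / B) then 1 else
    (x (j / B) - ((j % B : ℕ) : ZMod p)) * (((dg B a (j / B) : ℕ) : ZMod p) - ((j % B : ℕ) : ZMod p))⁻¹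

/-- MODULE M1.  The interpolation identity.
Proof.  As M1 of DC.  (1) at digit points: for a, v < B^D: dl a (digits of v) = 1 if a = v (every factor with c ≠ a_i is u u⁻¹ = 1 as u = a_i - c ≠ 0
mod p, both < B ≤ p) and 0 if a ≠ v (some digit i < D differs; the factor j = i B + v_i is 0).  (2) polynomial of degree ≤ D B in l. -/
def StM1 : Prop :=
  ∀ (p B D : ℕ) [Fact p.Prime] (om : ZMod p) (Ga : ℕ → ℕ → ZMod p) (tx ty : ℕ → ZMod p) (va vb : ℕ), 2 ≤ B → B ≤ p →
    2 * (D * B) < p - 1 → om ≠ 0 →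
    (∀ d, 0 < d → d < p - 1 → om ^ d ≠ 1) → va < B ^ D → vb < B ^ D →
    ∑ j ∈ range (p - 1), ∑ a ∈ range (B ^ D), ∑ b ∈ range (B ^ D),
      dl p B D a (fun i => om ^ (j + 1) * tx i + (dg B va i : ZMod p)) *
        dl p B D b (fun i => om ^ (j + 1) * ty i + (dg B vb i : ZMod p)) * Ga a b = - Ga va vb

/-- Effect of an operation; `w1` value of gate 1, `e` gate types, `Ga` gate functions. -/
noncomputable def opB (p B D : ℕ) (om : ZMod p) (w1 : ℕ) (e : ℕ → ℕ) (Ga : ℕ → ℕ → ℕ → ℕ) (q : Op) (r : RG p) : RG p :=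
  if q.k = 1 then addB D q.o (fun i => sgn p q.s * (dg B w1 i : ZMod p)) r
  else if q.k = 2 then sclB D q.o om r
  else if q.k = 3 then
    addB D q.o (fun i => - (sgn p q.s * ∑ a ∈ range (B ^ D), ∑ b ∈ range (B ^ D),
      dl p B D a (r ((q.o + 1) % 3)) * dl p B D b (r ((q.o + 2) % 3)) * (dg B (Ga (e q.t) a b) i : ZMod p))) r
  else r

/-- MODULE M2 (hypothesis StM1).  The recursion adds the value of the gate to block `o` and changes nothing else.  As M2 of DC. -/
def StM2 : Prop :=
  ∀ (p B D : ℕ) [Fact p.Prime] (om : ZMod p) (w1 : ℕ) (e m W : ℕ → ℕ) (Ga : ℕ → ℕ → ℕ → ℕ) (Tm : ℕ), 2 ≤ B → B ≤ p →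
    2 * (D * B) < p - 1 → om ≠ 0 →
    (∀ d, 0 < d → d < p - 1 → om ^ d ≠ 1) → W 1 = w1 → (∀ t, 1 ≤ t → t ≤ Tm → W t < B ^ D) →
    (∀ t, 2 ≤ t → t ≤ Tm → 1 ≤ m t ∧ m t < t ∧ W t = Ga (e t) (W (t - 1)) (W (m t))) →
    ∀ (d t o s : ℕ) (r : RG p), 1 ≤ t → t ≤ Tm → t ≤ d + 1 → o < 3 →
      runB (fun y => opB p B D om w1 e Ga (dcd (6 * (p - 1)) m d t o s y)) ((6 * (p - 1)) ^ d) r =
        addB D o (fun i => sgn p s * (dg B (W t) i : ZMod p)) r

/-! ### Packed registers -/

/-- Packed version of kind 1. -/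
def addn (cap p B D g o s w1 : ℕ) : ℕ :=
  bld cap p (3 * D) (fun j => if j / D = o then
    dg p g j + (if s = 0 then dg B w1 (j % D) else p - dg B w1 (j % D)) else dg p g j)

/-- The unnormalised indicator, mod p, at the point x. -/
def nu (p B D a : ℕ) (x : ℕ → ℕ) : ℕ :=
  (∏ j ∈ range (D * B), if j % B = dg B a (j / B) then 1 else x (j / B) + p - j % B) % p

/-- Packed version of `dl` for block `k` of `g`: the unnormalised indicator times the inverse (power p - 2) of its value at the digits of `a`. -/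
def dln (p B D a g k : ℕ) : ℕ :=
  (nu p B D a (fun i => dg p g (k * D + i)) * nu p B D a (fun i => dg B a i) ^ (p - 2)) % p

/-- Packed version of the contribution of `(a, b)`, value `x` of the gate function, to kind 3. -/
def updn (cap p B D g o s a b x : ℕ) : ℕ :=
  bld cap p (3 * D) (fun j => if j / D = o then
    dg p g j + (if s = 0 then p - (dln p B D a g ((o + 1) % 3) * dln p B D b g ((o + 2) % 3) * dg B x (j % D)) % p
      else dln p B D a g ((o + 1) % 3) * dln p B D b g ((o + 2) % 3) * dg B x (j % D)) else dg p g j)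

/-- MODULE M3.  The packed operations are correct.
Proof.  As M3 of DC.  Cast of dln: nu(x) cast = ∏ (x_i - c) (as c < B ≤ p: the cast of x + p - c), u ^ (p - 2) = u⁻¹ for u ≠ 0 (`ZMod.pow_card_sub_one_eq_one`), and
the inverse of a product is the product of the inverses.  digits < B ≤ p. -/
def StM3 : Prop :=
  ∀ (p B D : ℕ) [Fact p.Prime] (g : ℕ) (r : RG p), 2 ≤ B → B ≤ p → Rp p D g r →
    (∀ o s w1, o < 3 → Rp p D (addn (p ^ (3 * D)) p B D g o s w1) (addB D o (fun i => sgn p s * (dg B w1 i : ZMod p)) r)) ∧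
    (∀ o om, o < 3 → Rp p D (scln (p ^ (3 * D)) p D om g o) (sclB D o (om : ZMod p) r)) ∧
    (∀ o s a b x, o < 3 → Rp p D (updn (p ^ (3 * D)) p B D g o s a b x)
      (addB D o (fun i => - (sgn p s * (dl p B D a (r ((o + 1) % 3)) * dl p B D b (r ((o + 2) % 3)) * (dg B x i : ZMod p)))) r))

/-- MODULE M4 (hypotheses StL1 .. StL6).  The packed operations are E2.  As M4 of DC. -/
def StM4 : Prop :=
  ∀ {α : Type} [Fintype α] (F : ℕ → VF α), (∀ i, E2 (F i)) →
    E2 (fun w v => if F 1 w v = 0 then 0 else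
      addn (F 0 w v) (F 1 w v) (F 2 w v) (F 3 w v) (F 4 w v) (F 5 w v) (F 6 w v) (F 7 w v)) ∧
    E2 (fun w v => if F 1 w v = 0 then 0 else
      scln (F 0 w v) (F 1 w v) (F 2 w v) (F 3 w v) (F 4 w v) (F 5 w v)) ∧
    E2 (fun w v => if F 1 w v = 0 then 0 else
      updn (F 0 w v) (F 1 w v) (F 2 w v) (F 3 w v) (F 4 w v) (F 5 w v) (F 6 w v) (F 7 w v) (F 8 w v) (F 9 w v))

end Pool.Agent.Helper83.PT
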