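import Pool.Agent.Helper83.PT.Prg

set_option autoImplicit false

/-! Project PT (helper83), MP_26f0da_lc: statements, as St5 of DC (StP8 is reused from there): the program of one level computes SP f (if the lower level answers f).

All statements are about the meaning `sem` of the commands of Prg.lean.  Useful first steps (prove them in your file, they are short):
`lo i (ctx 40 r g l p) = l i` for i < 40, `pa j (ctx 40 r g l p) = p j`, `gl (ctx ..) = g`; `sem` of `sq (c :: cs)` = sem of `sq cs` after sem of `c`;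
`sem` of `sq []` = identity.  The repetition numbers are evaluated in the context p directly (p 3, p 4, p 5, p 10, p 11).
In all statements M = p 0 is larger than every assigned value, so `% p 0` does nothing. -/

namespace Pool.Agent.Helper83.PT

open Pool.Agent.Helper73.DC
open Finset
open scoped Classical

/-- MODULE P0 (hypotheses StL1 .. StL6, StM4, StM5).  The program is well-formed.
Proof.  ok: unfold all commands; every assigned function is a composition of `lo`, `pa`, `gl` (each is `E2.get`), case distinctions,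
+, *, -, /, %, `dg`, `sdc`, `pw`, `enc5`, cl, rs (`E2.subst` / `E2.sub1`), `addn`, `scln`, `updn` (StM4, with F i the i-th argument),
`dcdc` (StM5).  `if pa 6 v = 0 then 0 else if c then addn .. else gl v`: rewrite as case distinction with the E2 functions of StM4
(`if p = 0 then 0 else addn ..`).  rle: the repetition numbers are 0, p 3, p 4, p 5, p 10, p 11.  sz and dpt do not depend on cl, rs: by rfl or
simp with S := sz of the body for the trivial cl, rs (prove equality by unfolding). -/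
def StP0 : Prop :=
  ∀ {α : Type} [Fintype α], ∃ S d : ℕ, ∀ (cl : List α → ℕ → ℕ) (rs : List α → ℕ → ℕ → ℕ),
    E2 (fun w v => cl w (v 0)) → E2 (fun w v => rs w (v 0) (v 1)) →
      (body cl rs).ok 40 ∧ sz (body cl rs) = S ∧ dpt (body cl rs) = d ∧
      ∀ (w : List α) (p : ℕ → ℕ) (X : ℕ), p 3 ≤ X → p 4 ≤ X → p 5 ≤ X → p 10 ≤ X → p 11 ≤ X → (body cl rs).rle w p X

/-- MODULE P1.  Walks.
Proof.  One step: with the local variables representing a walk state a = (l 21, l 22, l 23, l 24), target t = l 25, the command walkStep leads to the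
state wstep a (check the four cases), provided all values are < M: cl, rs < D = p 3 < p 2 <= p 2 ^ 5 <= p 5 < p 0, f < p 2, l 22 + 1 <= D + 1 < M
(invariant: after n steps l 22 <= n).  The calls have arguments < D, so `Orc` applies.  Iterate D times. -/
def StP1 : Prop :=
  ∀ {α : Type} (cl : List α → ℕ → ℕ) (rs : List α → ℕ → ℕ → ℕ) (w : List α) (p f : ℕ → ℕ) (cb : ℕ → ℕ → ℕ × ℕ) (r g : ℕ)
    (l : ℕ → ℕ), Prm cl rs w p → Orc p f cb → (∀ i, l i < p 0) → g < p 1 →
    (sem w p 40 cb r (walkP cl rs) (l, g)).2 = g ∧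
    (∀ i, (sem w p 40 cb r (walkP cl rs) (l, g)).1 i < p 0) ∧
    (∀ i, i ∉ ({21, 22, 23, 24, 26, 27, 28, 29} : Finset ℕ) → (sem w p 40 cb r (walkP cl rs) (l, g)).1 i = l i) ∧
    (sem w p 40 cb r (walkP cl rs) (l, g)).1 21 = (walk (p 3) (cl w) (rs w) f (l 21) (l 25)).x ∧
    (sem w p 40 cb r (walkP cl rs) (l, g)).1 22 = (walk (p 3) (cl w) (rs w) f (l 21) (l 25)).c ∧
    (sem w p 40 cb r (walkP cl rs) (l, g)).1 23 = (walk (p 3) (cl w) (rs w) f (l 21) (l 25)).s ∧
    (sem w p 40 cb r (walkP cl rs) (l, g)).1 24 = (walk (p 3) (cl w) (rs w) f (l 21) (l 25)).fr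

/-- MODULE P2 (hypothesis StP1).  Pop sequences.
Proof.  One round: popStep turns (l 31, l 32, l 33) = a (a : PS) with segment start l 30 into pstep a (variable 34 is the guard); iterate
D times.  All values < M. -/
def StP2 : Prop :=
  ∀ {α : Type} (cl : List α → ℕ → ℕ) (rs : List α → ℕ → ℕ → ℕ) (w : List α) (p f : ℕ → ℕ) (cb : ℕ → ℕ → ℕ × ℕ) (r g : ℕ)
    (l : ℕ → ℕ), Prm cl rs w p → Orc p f cb → (∀ i, l i < p 0) → g < p 1 → l 33 = 0 →
    (sem w p 40 cb r (popP cl rs) (l, g)).2 = g ∧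
    (∀ i, (sem w p 40 cb r (popP cl rs) (l, g)).1 i < p 0) ∧
    (∀ i, i ∉ ({21, 22, 23, 24, 25, 26, 27, 28, 29, 31, 32, 33, 34} : Finset ℕ) →
      (sem w p 40 cb r (popP cl rs) (l, g)).1 i = l i) ∧
    (sem w p 40 cb r (popP cl rs) (l, g)).1 31 = (popf (p 3) (cl w) (rs w) f (l 30) (l 31) (l 32)).h ∧
    (sem w p 40 cb r (popP cl rs) (l, g)).1 32 = (popf (p 3) (cl w) (rs w) f (l 30) (l 31) (l 32)).r ∧
    (sem w p 40 cb r (popP cl rs) (l, g)).1 33 = (popf (p 3) (cl w) (rs w) f (l 30) (l 31) (l 32)).t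

/-- MODULE P3 (hypotheses StP1, StP2).  Gate functions.
Proof.  Composition; dg (p 2) x i < p 2 < M (p 2 > 0); the assigned value of variable 20 is taken mod p 5 < p 0. -/
def StP3 : Prop :=
  ∀ {α : Type} (cl : List α → ℕ → ℕ) (rs : List α → ℕ → ℕ → ℕ) (w : List α) (p f : ℕ → ℕ) (cb : ℕ → ℕ → ℕ × ℕ) (r g : ℕ)
    (l : ℕ → ℕ), Prm cl rs w p → Orc p f cb → (∀ i, l i < p 0) → g < p 1 →
    (sem w p 40 cb r (gamP cl rs) (l, g)).2 = g ∧
    (∀ i, (sem w p 40 cb r (gamP cl rs) (l, g)).1 i < p 0) ∧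
    (∀ i, i < 20 ∨ 34 < i → (sem w p 40 cb r (gamP cl rs) (l, g)).1 i = l i) ∧
    (sem w p 40 cb r (gamP cl rs) (l, g)).1 20 = GG cl rs w p f (dg (p 12) (l 5) (l 15)) (l 18) (l 19)

/-- MODULE P4 (hypotheses StP3, StM3).  Updates.
Proof.  Case l 14 <> 3: the global register never changes (gl v % p 1 = gl v as g < p 1).  Case l 14 = 3: invariant of the double loop: after the
pairs (a', b') before (a, b) in lexicographic order, Rp g' of `addB L o (fun i => - (sgn s * sum over these pairs of dl a' (r x) dl b' (r y)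
bit i of the gate value))` of r, where the blocks x = (o+1)%3, y = (o+2)%3 are unchanged (they differ from o < 3), so that every
step adds its own term (StM3, third part, applied to the present registers; combine two addB on the same block).  `updn` < p 1: from Rp
(p 1 = p 6 ^ (3 L)).  The arguments 18, 19 run through 0, .., 2^L - 1 (p 5 = 2 ^ p 4 < M).  opB with kind 3 by definition. -/
def StP4 : Prop :=
  ∀ {α : Type} (cl : List α → ℕ → ℕ) (rs : List α → ℕ → ℕ → ℕ) (w : List α) (p f : ℕ → ℕ) (cb : ℕ → ℕ → ℕ × ℕ) (r g : ℕ)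
    (l : ℕ → ℕ) (rr : RG (p 6)), Prm cl rs w p → Orc p f cb → (∀ i, l i < p 0) → Rp (p 6) (p 4) g rr →
    (l 14 = 3 → l 16 < 3) →
    (∀ i, (sem w p 40 cb r (opP cl rs) (l, g)).1 i < p 0) ∧
    (∀ i, i < 18 ∨ 34 < i → (sem w p 40 cb r (opP cl rs) (l, g)).1 i = l i) ∧
    Rp (p 6) (p 4) (sem w p 40 cb r (opP cl rs) (l, g)).2
      (if l 14 = 3 then opB (p 6) (p 13) (p 4) (p 7 : ZMod (p 6)) (l 3) (fun t => dg (p 12) (l 5) t) (GG cl rs w p f)
        ⟨3, l 15, l 16, l 17⟩ rr else rr)

/-- MODULE P5 (hypotheses StP4, StM3, StM5).  One step number.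
Proof.  StM5 (second part) with cap = p 10 = b^Dp: dcdc = dcd.  The operation q = dcd .. has block < 3 (start block 0, then (o+1)%3, (o+2)%3, or
the null operation) and kind <= 3; its components are < M (t: T + 1 or less, or a digit of l 6 <= l 6 < M).  Kinds 1, 2: StM3; kind 3: StP4; kind
0: nothing.  Variable 3 is w1. -/
def StP5 : Prop :=
  ∀ {α : Type} (cl : List α → ℕ → ℕ) (rs : List α → ℕ → ℕ → ℕ) (w : List α) (p f : ℕ → ℕ) (cb : ℕ → ℕ → ℕ × ℕ) (r g : ℕ)
    (l : ℕ → ℕ) (rr : RG (p 6)), Prm cl rs w p → Orc p f cb → (∀ i, l i < p 0) → Rp (p 6) (p 4) g rr →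
    l 4 + 1 < p 0 → l 13 < p 10 →
    (∀ i, (sem w p 40 cb r (stepY cl rs) (l, g)).1 i < p 0) ∧
    (∀ i, i < 13 ∨ 34 < i → (sem w p 40 cb r (stepY cl rs) (l, g)).1 i = l i) ∧
    (sem w p 40 cb r (stepY cl rs) (l, g)).1 13 = l 13 + 1 ∧
    Rp (p 6) (p 4) (sem w p 40 cb r (stepY cl rs) (l, g)).2
      (opB (p 6) (p 13) (p 4) (p 7 : ZMod (p 6)) (l 3) (fun t => dg (p 12) (l 5) t) (GG cl rs w p f)
        (dcd (6 * (p 6 - 1)) (fun t => dg (p 12) (l 6) t) (p 9) (l 4 + 1) 0 (l 35) (l 13)) rr)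

/-- MODULE P6 (hypotheses StP5, StM2, StM6).  The whole run.
Proof.  Induction on the number of step numbers: Rp of runB (StP5); after p 10 = b^Dp steps StM2 with d = Dp, t = T + 1 <= Dp + 1, o = 0, Tm =
T + 1, e = digits of l 5, m = digits of l 6, Ga = GG; the conditions on ω by StM6 (second part) from Prm. -/
def StP6 : Prop :=
  ∀ {α : Type} (cl : List α → ℕ → ℕ) (rs : List α → ℕ → ℕ → ℕ) (w : List α) (p f : ℕ → ℕ) (cb : ℕ → ℕ → ℕ × ℕ) (r g : ℕ)
    (l W : ℕ → ℕ) (rr : RG (p 6)), Prm cl rs w p → Orc p f cb → (∀ i, l i < p 0) → Rp (p 6) (p 4) g rr →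
    l 4 ≤ p 9 → l 4 + 1 < p 0 → Circ cl rs w p f (l 5) (l 6) (l 3) (l 4 + 1) W →
    (∀ i, (sem w p 40 cb r (prunP cl rs) (l, g)).1 i < p 0) ∧
    (∀ i, i < 13 ∨ 34 < i → (sem w p 40 cb r (prunP cl rs) (l, g)).1 i = l i) ∧
    Rp (p 6) (p 4) (sem w p 40 cb r (prunP cl rs) (l, g)).2
      (addB (p 4) 0 (fun i => sgn (p 6) (l 35) * (dg (p 13) (W (l 4 + 1)) i : ZMod (p 6))) rr)

/-- MODULE P7 (hypothesis StP6).  The outcome becomes explicit and the registers are restored.
Proof.  g < p 1 represents rr k i := digit k L + i.  bitP with I = i < L: OLD = digit i; first run (sign 0): registers of block 0 increase by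
the bits of V = W (T+1); NW = (new digit + p - OLD) % p = bit i of V (digits are < p, bt <= 1 < p; the casts of the digits determine
them); second run (sign 1) gives back registers rr: Rp g'' rr and Rp g rr imply g'' = g (both are < p^(3L) with the same digits
k L + i, k < 3, i < L, i.e. all digits < 3 L: `Nat.ofDigits` or induction).  OV is the sum of the bits: after all L bits OV = V as V < 2^L
(sum_(i<L) bit i * 2^i = V); pw (p 5) 2 i = 2^i since 2^i <= 2^L.  Note: if 3 L digits: L > 0 because 2^L >= p 2 ^ 5 > 1. -/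
def StP7 : Prop :=
  ∀ {α : Type} (cl : List α → ℕ → ℕ) (rs : List α → ℕ → ℕ → ℕ) (w : List α) (p f : ℕ → ℕ) (cb : ℕ → ℕ → ℕ × ℕ) (r g : ℕ)
    (l W : ℕ → ℕ), Prm cl rs w p → Orc p f cb → (∀ i, l i < p 0) → g < p 1 →
    l 4 ≤ p 9 → l 4 + 1 < p 0 → Circ cl rs w p f (l 5) (l 6) (l 3) (l 4 + 1) W →
    (sem w p 40 cb r (outP cl rs) (l, g)).2 = g ∧
    (∀ i, (sem w p 40 cb r (outP cl rs) (l, g)).1 i < p 0) ∧
    (∀ i, i < 10 ∨ 36 < i → (sem w p 40 cb r (outP cl rs) (l, g)).1 i = l i) ∧
    (sem w p 40 cb r (outP cl rs) (l, g)).1 12 = W (l 4 + 1)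

/-- MODULE P9 (hypotheses StF3, StP7, StP8).  One event = one macro step.
Proof.  Let W, js be as in HInv, T = l 4 <= n + 1 <= kk = p 11.  The first two assignments make gate T + 1 a query gate (type 2, second input 1); the
digits 2..T of HE, HM are unchanged (StF3: T + 1 < kk + 3, new digits 2, 1 < Bh); extend W by W' (T+1) := GG 2 (W T) (W 1) (`Function.update`): Circ
for T + 1 gates (GG < p 5 since it is taken mod p 5 > 0).  StP7: variable 12 = W' (T+1), registers unchanged.  If a.fin: variable 8 <> 0, action 0,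
nothing changes (mstep a = a; only digit T + 1 of HE, HM changed).  Otherwise with q = dg (W T) 2 etc. and P = popf .. s h (q - 1):
the outcome is ((if q = 0 then 2 else P.t) + 3 P.r) % p 5 and no reduction happens (P.r < p 2, 3 p 2 + 2 <= p 2 ^ 5 <= p 5; for q = 0: q - 1 = 0, the bounds
of StP8 hold too).  TY, VA are type and P.r.  Case q = 0: action 4: variable 8 := 1; mstep sets fin, res unchanged.  Case P.t = 1: action 1: new
gate T + 1 has type 1, second input 1; W (T+1) := GG 1 (W T) (W 1) = enc5 (P.r, walk.c, walk.s, s, P.h), fields < p 2, no reduction mod p 5;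
js := (T+1) :: js.  Case P.t = 0, js = j :: js': variable 7 = scode js' * Bh + j <> 0, j < Bh: % gives j, / gives scode js'; action 2; W (T+1) := GG 0 (W T) (W j) =
enc5 (dg (W j) 3, dg (W j) 4, P.r + 1, 0, 0).  Case P.t = 0, js = []: variable 7 = 0: action 3: result P.r + 1.  Bounds: T + 1 < Bh; scode js < Bh ^
(length js) <= Bh ^ (kk + 1) <= M for js.length <= n + 1 <= kk + 1 with all members < Bh. -/
def StP9 : Prop :=
  ∀ {α : Type} (cl : List α → ℕ → ℕ) (rs : List α → ℕ → ℕ → ℕ) (w : List α) (p f : ℕ → ℕ) (cb : ℕ → ℕ → ℕ × ℕ) (r g : ℕ)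
    (l : ℕ → ℕ) (a : MS) (n : ℕ), Prm cl rs w p → Orc p f cb → (∀ i, l i < p 0) → g < p 1 → n < p 11 →
    HInv cl rs w p f l a n →
    (sem w p 40 cb r (hstP cl rs) (l, g)).2 = g ∧
    (∀ i, (sem w p 40 cb r (hstP cl rs) (l, g)).1 i < p 0) ∧
    (∀ i < 4, (sem w p 40 cb r (hstP cl rs) (l, g)).1 i = l i) ∧
    HInv cl rs w p f (sem w p 40 cb r (hstP cl rs) (l, g)).1 (mstep (p 3) (cl w) (rs w) f a) (n + 1)

/-- MODULE P10 (hypotheses StP1, StP8, StP9).  The program computes SP f, and all levels.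
Proof.  (1) body from (ini x, g), x < p 3: variable 2 = f x; walk from x (target 0); W1 = enc5 (x, c, s, 0, 0) < p 2 ^ 5 <= p 5; T = 1; all other variables
are still 0: HInv with W 1 = W1, js = [], a = minit x, n = 0 (digits of 0).  After kk = p 11 events (StP9, iterate): variable 9 = res of mstep^[kk] minit.
Answer: variable 1 = SP f x.  (2) SP f x < p 2 for all x if f < p 2: invariant of the macro machine: q < p 2, h < p 2, all stack entries < p 2, res < p 2
(StP8; start with x arbitrary: s is only an argument of popf, no bound needed for it... for the stack entries only h' is needed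
< p 2).  (3) Induction on r: VV r x g = ((SP)^[r] f0 x, g) for x < p 3, g < p 1: the callback of level r + 1 is VV r, Orc by the induction hypothesis and
(2). -/
def StP10 : Prop :=
  ∀ {α : Type} (cl : List α → ℕ → ℕ) (rs : List α → ℕ → ℕ → ℕ) (w : List α) (p f0 : ℕ → ℕ) (bs : VF α),
    Prm cl rs w p → (∀ x, f0 x < p 2) → (∀ x, bs w (scons x p) = f0 x) →
    ∀ (r x g : ℕ), x < p 3 → g < p 1 →
      VV w p 40 bs (body cl rs) r x g = ((SP (p 3) (p 11) (cl w) (rs w))^[r] f0 x, g)

end Pool.Agent.Helper83.PT
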