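import Pool.Agent.Helper73.DC.Mda

set_option autoImplicit false

/-! Project PT (helper83), MP_26f0da_lc: turns of pushdown automata (definitions). -/

namespace Pool.Agent.Helper83.PT

open Pool.Agent.Helper73.DC
open Finset
open scoped Classical

/-- The flag after a move which replaces the top symbol by `γ`: the last change of the height of the stack was an increase. -/
def fl {Γ : Type} (γ : List Γ) (u : Bool) : Bool :=
  if γ = [] then false else if 2 ≤ γ.length then true else u

/-- 1 if the move is a turn: a decrease of the height when the last change of the height was an increase. -/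
def tu {Γ : Type} (γ : List Γ) (u : Bool) : ℕ := if γ = [] ∧ u = true then 1 else 0

/-- `M.TRun w t (u, q, p, s) (u', q', p', s')`: a run of `M` on `w` from the configuration `(q, p, s)` to `(q', p', s')` with exactly `t` turns, where
`u = true` if the last change of the height of the stack before the run was an increase, and `u'` is the same for the end of the run. -/
inductive TRun {α : Type} (M : MPDA α) (w : List α) :
    ℕ → Bool × M.Q × (Fin M.k → ℕ) × List M.Γ → Bool × M.Q × (Fin M.k → ℕ) × List M.Γ → Prop where
  | refl (c : Bool × M.Q × (Fin M.k → ℕ) × List M.Γ) : TRun M w 0 c c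
  | step (t : ℕ) (u : Bool) (q q' : M.Q) (p : Fin M.k → ℕ) (d : Fin M.k → Mv) (Z : M.Γ) (s γ : List M.Γ)
      (c : Bool × M.Q × (Fin M.k → ℕ) × List M.Γ) :
      M.tr q Z (fun j => symAt w (p j)) = some (q', d, γ) → TRun M w t (fl γ u, q', nps w d p, γ ++ s) c →
      TRun M w (tu γ u + t) (u, q, p, Z :: s) c

/-- `w` is accepted with at most `t` turns: started with all heads on the left end marker and the stack `z0` an accepting state is
reached by a run with at most `t` turns. -/
def AccTurns {α : Type} (M : MPDA α) (w : List α) (t : ℕ) : Prop :=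
  ∃ t' ≤ t, ∃ (u : Bool) (q : M.Q) (p : Fin M.k → ℕ) (s : List M.Γ), M.acc q ∧ TRun M w t' (false, M.q0, fun _ => 0, [M.z0]) (u, q, p, s)

/-- Runs of a (one-way) deterministic pushdown automaton with exactly `t` turns, with the flags as in `TRun`; configurations: flag, state,
rest of the input, stack. -/
inductive DRun {α : Type} (M : DPDA α) : ℕ → Bool × M.Q × List α × List M.Γ → Bool × M.Q × List α × List M.Γ → Prop where
  | refl (c : Bool × M.Q × List α × List M.Γ) : DRun M 0 c c
  | rd (t : ℕ) (u : Bool) (q q' : M.Q) (a : α) (v : List α) (Z : M.Γ) (s γ : List M.Γ) (c : Bool × M.Q × List α × List M.Γ) :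
      M.tr q Z a = some (q', γ) → DRun M t (fl γ u, q', v, γ ++ s) c → DRun M (tu γ u + t) (u, q, a :: v, Z :: s) c
  | ep (t : ℕ) (u : Bool) (q q' : M.Q) (v : List α) (Z : M.Γ) (s γ : List M.Γ) (c : Bool × M.Q × List α × List M.Γ) :
      M.ep q Z = some (q', γ) → DRun M t (fl γ u, q', v, γ ++ s) c → DRun M (tu γ u + t) (u, q, v, Z :: s) c

/-- `w` is accepted with at most `t` turns: an accepting state is reached after the whole input is read, by a run with at most `t` turns. -/
def DAccTurns {α : Type} (M : DPDA α) (w : List α) (t : ℕ) : Prop :=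
  ∃ t' ≤ t, ∃ (u : Bool) (q : M.Q) (s : List M.Γ), M.acc q ∧ DRun M t' (false, M.q0, w, [M.z0]) (u, q, [], s)

end Pool.Agent.Helper83.PT
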