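import Pool.Agent.Helper83.PT.St5
import Pool.Agent.Helper83.PT.Turn

set_option autoImplicit false

/-! Project PT (helper83), MP_26f0da_lc: statements: parameters, levels, the abstract theorem, pushdown automata. -/

namespace Pool.Agent.Helper83.PT

open Pool.Agent.Helper73.DC
open Finset
open scoped Classical

/-- Base of the digits. -/
def BB (n : ℕ) : ℕ := 2 ^ (lll n + 1)

/-- Number of digits. -/
def DD (e n : ℕ) : ℕ := LL e n / (lll n + 1) + 1

/-- The parameters; `P`, `O` are the prime and the generator of StM7. -/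
def prm (P O : ℕ → ℕ) (e C n N : ℕ) : ℕ → ℕ
  | 0 => 2 ^ (C * lam n)
  | 1 => pw N (P (DD e n * BB n)) (3 * DD e n)
  | 2 => (n + 2) ^ e + 2
  | 3 => (n + 2) ^ e
  | 4 => DD e n
  | 5 => BB n ^ DD e n
  | 6 => P (DD e n * BB n)
  | 7 => O (DD e n * BB n)
  | 8 => 6 * (P (DD e n * BB n) - 1)
  | 9 => kkk n + 1
  | 10 => (6 * (P (DD e n * BB n) - 1)) ^ (kkk n + 1)
  | 11 => kkk n
  | 12 => kkk n + 3
  | 13 => BB n
  | _ => 0

/-- MODULE A1.  Numbers.
Proof.  λ = lam n ≥ 2, l = lll n, 2^l ≤ λ < 2^(l+1).  B^D = 2^((l+1) D) and (l+1) D ≥ L = LL e n (as D (l+1) > L, `Nat.lt_div_mul_add` style), (l+1) D ≤ L + l + 1 ≤ L +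
λ + 1.  ((n+2)^e + 2)^5 ≤ 2^L as in A1 of DC.  D B ≤ (L + 1) 2 λ, so q ≤ 4 D B + 4 ≤ C0 λ^2 ≤ 2^(c0 + 2 (l + 1)): log q ≤ c0 + 2 l + 2.
(6 (q - 1))^(kk+1) and (kk+3)^(kk+3): as in DC, kk = 2^(l/2+2).  q^(3 D) ≤ 2^((c0 + 2 l + 2) 3 (L/(l+1) + 1)) ≤ 2^(3 (c0 + 2) (L + l + 1)). -/
def StA1 : Prop :=
  ∀ e : ℕ, 1 ≤ e → ∃ C : ℕ, ∀ n q : ℕ, 2 ≤ q → q ≤ 4 * (DD e n * BB n) + 4 →
    ((n + 2) ^ e + 2) ^ 5 ≤ BB n ^ DD e n ∧ BB n ^ DD e n < 2 ^ (C * lam n) ∧ q < 2 ^ (C * lam n) ∧
    (6 * (q - 1)) ^ (kkk n + 1) < 2 ^ (C * lam n) ∧ (kkk n + 3) ^ (kkk n + 3) ≤ 2 ^ (C * lam n) ∧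
    q ^ (3 * DD e n) ≤ 2 ^ (C * lam n) ∧ 2 ^ lam n ≤ (n + 2) ^ 2

/-- MODULE A2.  The number of levels.
Proof.  log2 n ≤ λ and λ < 2^(l+1) ≤ (2^eee)^2 = k^2, k ≥ 2: c (log n)^c + c ≤ c (k^2)^c + c < k^(2 c) 2^(2 c + 1) ≤ k^(4 c + 1).
(c (x^c + 1) ≤ 2 c max(1, x^c), x = log n; log n ≤ k^2, 2 c < 2^(2 c + 1).)  Second part: (C + 1) log2 (n+2) ≤ (C+1)(log2 n + 2). -/
def StA2 : Prop :=
  (∀ c : ℕ, ∃ R : ℕ, ∀ n : ℕ, c * Nat.log 2 n ^ c + c < (2 ^ eee n) ^ R) ∧
  (∀ C : ℕ, ∃ C' : ℕ, ∀ n : ℕ, (C + 1) * Nat.log 2 (n + 2) ≤ C' * Nat.log 2 n + C')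

/-- MODULE A3 (hypotheses StL1 .. StL5).  The parameters are E2.  As A3 of DC (2^(l+1) ≤ 2^(λ+1), B^D = pw cap with cap = (n+2)^(2C); BB n ^ DD e n ≤ 2^(C λ)). -/
def StA3 : Prop :=
  ∀ {α : Type} [Fintype α] (P O : ℕ → ℕ) (e C : ℕ),
    (∀ F : VF α, E2 F → E2 (fun w v => P (F w v)) ∧ E2 (fun w v => O (F w v))) →
    (∀ n, (6 * (P (DD e n * BB n) - 1)) ^ (kkk n + 1) ≤ 2 ^ (C * lam n)) →
    (∀ n, BB n ^ DD e n ≤ 2 ^ (C * lam n)) →
    ∀ j, E2 (α := α) (fun w v => prm P O e C w.length (v 0) j)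

/-! ### Levels -/

/-- Rank of a derivation.  `EvR lf cl rs j x r c`: a derivation of the value `r` of the node `x` such that, at level `j`, it has at most `c`
innermost heavy nodes; derivations with at most one of them are light at level `j + 1`. -/
inductive EvR (lf cl : ℕ → ℕ) (rs : ℕ → ℕ → ℕ) : ℕ → ℕ → ℕ → ℕ → Prop where
  | leaf (j x r : ℕ) : lf x = r + 1 → EvR lf cl rs j x r 0
  | up (j x r c : ℕ) : EvR lf cl rs j x r c → c ≤ 1 → EvR lf cl rs (j + 1) x r 0
  | node (j x r1 c1 r2 c2 : ℕ) : lf x = 0 → EvR lf cl rs j (cl x) r1 c1 → EvR lf cl rs j (rs x r1) r2 c2 →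
      EvR lf cl rs j x r2 (max 1 (c1 + c2))

/-- MODULE A4 (hypotheses StSS, StSC, StG6).  Correctness of the levels.
Proof.  f_j = (SP D kk cl rs)^[j] lf.  (a) f_j x = ρ + 1 implies Ev x ρ (StSS, induction on j; f_0 = lf: `Ev.leaf`); lf x ≠ 0 → f_j x ≠ 0.
(b) EvR j x r c → ∃ m' n', Ev f_j cl rs wt_j x r m' n' ∧ m' ≤ c, where wt_j x = 1 if f_j x = 0 and f_j (cl x) ≠ 0 and f_j (rs x (f_j (cl x) - 1)) ≠ 0, else 0; for
x < D.  Induction on EvR.  leaf: f_j x ≠ 0 and (a) and uniqueness of values give f_j x = r + 1; leaf of weight 0.  up: Ev f_j .. m' ≤ 1 < 2 ≤ k: StSC with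
lf := f_j, f := f_j, wt := wt_j, K := 1: f_(j+1) x ≠ 0 (the hypothesis of StSC: measure 0 → f_j x ≠ 0: by induction on the derivation Ev f_j: node: weight 0 and both
premises measure 0, so f_j (cl x) ≠ 0 with value r1, f_j (rs x r1) ≠ 0, so f_j x ≠ 0, otherwise wt_j x = 1); value by (a).  node: if f_j x ≠ 0: leaf of
weight 0.  Otherwise Ev.node; if wt_j x = 1 both premises are light: leaves, their measure is 0 (uniqueness, StG6).
So EvR j x r 0 → f_j x ≠ 0.  (c) by induction on i: Ev lf cl rs wt x r m n, x < D, m < k^i → f_(2+i) x ≠ 0 (i = 0: hypothesis; StSC with K = k^i).  Note x < D: c < D, cl, rs < D. -/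
def StA4 : Prop :=
  ∀ (lf cl : ℕ → ℕ) (rs : ℕ → ℕ → ℕ) (wt : ℕ → ℕ) (D kk k R c : ℕ),
    (∀ x r n, Ev lf cl rs wt x r 0 n → EvR lf cl rs 2 x r 0) →
    (∀ x, cl x < D ∧ ∀ r, rs x r < D) → 2 ≤ k → 2 * k ≤ kk → c < D →
    (∀ m n, Ev lf cl rs wt c 0 m n → m < k ^ R) →
    (((SP D kk cl rs)^[2 + R] lf c = 1) ↔ ∃ m n, Ev lf cl rs wt c 0 m n)

/-- The abstract theorem (MODULE A5; hypotheses StP0, StP10, StM7, StF6, StF7, StTOP, StA1 .. StA4, StL1 .. StL5).  A language described by a call structure with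
polynomially many nodes, E2 functions, polylogarithmic measure and such that derivations of measure 0 have rank 2 is in logarithmic space.
Proof.  As A5 of DC, with R constant: R = 2 + R0 levels (R0 from StA2), N = (n+2)^(C2) with a constant C2. -/
def StABS : Prop :=
  ∀ {α : Type} [Fintype α] (L : Set (List α)) (cl lf wt : List α → ℕ → ℕ) (rs : List α → ℕ → ℕ → ℕ) (c0 : List α → ℕ) (e c : ℕ),
    E2 (fun w v => cl w (v 0)) → E2 (fun w v => rs w (v 0) (v 1)) → E2 (fun w v => lf w (v 0)) → E2 (fun w _ => c0 w) →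
    (∀ w x, cl w x < (w.length + 2) ^ e) → (∀ w x r, rs w x r < (w.length + 2) ^ e) → (∀ w x, lf w x < (w.length + 2) ^ e) →
    (∀ w, c0 w < (w.length + 2) ^ e) →
    (∀ w x r n, Ev (lf w) (cl w) (rs w) (wt w) x r 0 n → EvR (lf w) (cl w) (rs w) 2 x r 0) →
    (∀ w, w ∈ L ↔ ∃ m n, Ev (lf w) (cl w) (rs w) (wt w) (c0 w) 0 m n) →
    (∀ w m n, Ev (lf w) (cl w) (rs w) (wt w) (c0 w) 0 m n → m ≤ c * Nat.log 2 w.length ^ c + c) →
    L ∈ DSPACE (α := α) (fun n => Nat.log 2 n)

/-! ### Pushdown automata with turn flags -/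

/-- The automaton which keeps the flag in its state. -/
def aug {α : Type} (M : MPDA α) : MPDA α where
  k := M.k
  Q := M.Q × Bool
  Γ := M.Γ
  finQ := by
    have := M.finQ
    infer_instance
  finΓ := M.finΓ
  q0 := (M.q0, false)
  z0 := M.z0
  acc := fun q => M.acc q.1
  tr := fun q Z x =>
    match M.tr q.1 Z x with
    | none => none
    | some (q', d, γ) => some ((q', fl γ q.2), d, γ)

/-- Runs with exactly `t` turns, all of whose configurations except possibly the last one are not accepting. -/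
inductive TRunF {α : Type} (M : MPDA α) (w : List α) :
    ℕ → Bool × M.Q × (Fin M.k → ℕ) × List M.Γ → Bool × M.Q × (Fin M.k → ℕ) × List M.Γ → Prop where
  | refl (c : Bool × M.Q × (Fin M.k → ℕ) × List M.Γ) : TRunF M w 0 c c
  | step (t : ℕ) (u : Bool) (q q' : M.Q) (p : Fin M.k → ℕ) (d : Fin M.k → Mv) (Z : M.Γ) (s γ : List M.Γ)
      (c : Bool × M.Q × (Fin M.k → ℕ) × List M.Γ) :
      ¬ M.acc q → M.tr q Z (fun j => symAt w (p j)) = some (q', d, γ) → TRunF M w t (fl γ u, q', nps w d p, γ ++ s) c →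
      TRunF M w (tu γ u + t) (u, q, p, Z :: s) c

/-- Weights of the nodes of the table system of `aug M`: 0 at `accept`, 1 at numbers which are not nodes of stack words, and 1 at the nodes
whose move is a turn. -/
noncomputable def wtT {α : Type} [Fintype α] (M : MPDA α) (T : MTab) (K : ℕ) (num : M.Q × Bool → List M.Γ → ℕ) (w : List α) (x : ℕ) : ℕ :=
  if x = T.ac w.length then 0
  else if ∃ (q : M.Q) (u : Bool) (β : List M.Γ) (p : Fin M.k → ℕ), β.length ≤ K ∧ (∀ j, p j ≤ w.length + 1) ∧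
      x = mnd (aug M) num w.length (q, u) β p ∧
      ¬ (¬ M.acc q ∧ ∃ (Z : M.Γ) (q' : M.Q) (d : Fin M.k → Mv) (γ : List M.Γ), β = [Z] ∧
        M.tr q Z (fun j => symAt w (p j)) = some (q', d, γ) ∧ tu γ u = 1) then 0
  else 1

/-- MODULE W (hypothesis StG3).  The weights.
Proof.  mnd is injective on the pairs of stack words of length ≤ K and positions ≤ n + 1 (MDesc.inj, digits base n + 2; and mnd < ac).  (1) ac.  (2) a node of an
accepting state, of the empty word or of a word of length ≥ 2, or [Z] without move, or with a move that is not a turn: 0.  (3) a turn: 1. (4) otherwise the weight is 1. -/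
def StW : Prop :=
  ∀ {α : Type} [Fintype α] (M : MPDA α) (T : MTab) (K : ℕ) (num : M.Q × Bool → List M.Γ → ℕ) (qn : M.Q × Bool → ℕ),
    MDesc (aug M) T K num qn → ∀ (w : List α),
      wtT M T K num w (T.ac w.length) = 0 ∧
      (∀ (q : M.Q) (u : Bool) (β : List M.Γ) (p : Fin M.k → ℕ), β.length ≤ K → (∀ j, p j ≤ w.length + 1) → (M.acc q ∨ β.length ≠ 1) →
        wtT M T K num w (mnd (aug M) num w.length (q, u) β p) = 0) ∧
      (∀ (q : M.Q) (u : Bool) (Z : M.Γ) (p : Fin M.k → ℕ), (∀ j, p j ≤ w.length + 1) → ¬ M.acc q →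
        M.tr q Z (fun j => symAt w (p j)) = none → wtT M T K num w (mnd (aug M) num w.length (q, u) [Z] p) = 0) ∧
      (∀ (q : M.Q) (u : Bool) (Z : M.Γ) (p : Fin M.k → ℕ) (q' : M.Q) (d : Fin M.k → Mv) (γ : List M.Γ), (∀ j, p j ≤ w.length + 1) →
        ¬ M.acc q → M.tr q Z (fun j => symAt w (p j)) = some (q', d, γ) →
        wtT M T K num w (mnd (aug M) num w.length (q, u) [Z] p) = tu γ u) ∧
      (∀ x, wtT M T K num w x = 0 → x = T.ac w.length ∨ ∃ (q : M.Q) (u : Bool) (β : List M.Γ) (p : Fin M.k → ℕ), β.length ≤ K ∧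
        (∀ j, p j ≤ w.length + 1) ∧ x = mnd (aug M) num w.length (q, u) β p)

/-- MODULE G4 (hypotheses StG3, StW).  Derivations give runs with the same number of turns.
Proof.  As G4 of DC (template Helper84/DC/M_G4.lean), with weights: accepting or empty word: leaf, weight 0 (StW 2), `TRunF.refl`; [Z] with a move: weight tu γ u (StW 4), the
derivation of cl = ac has measure wtT ac = 0, `TRunF.step`; Z :: Y :: β: weight 0, runs compose (lemma: TRunF m1 a b → TRunF m2 b c → TRunF (m1 + m2) a c; induction on the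
first); value 0 of [Z]: rs x 0 = ac has measure 0 and value 0. -/
def StG4 : Prop :=
  ∀ {α : Type} [Fintype α] (M : MPDA α) (T : MTab) (K : ℕ) (num : M.Q × Bool → List M.Γ → ℕ) (qn : M.Q × Bool → ℕ),
    MDesc (aug M) T K num qn →
    ∀ (w : List α) (x v m k : ℕ), Ev (T.lf w) (T.cl w) (T.rs w) (wtT M T K num w) x v m k →
      ∀ (q : M.Q) (u : Bool) (β : List M.Γ) (p : Fin M.k → ℕ), β.length ≤ K → (∀ j, p j ≤ w.length + 1) →
        x = mnd (aug M) num w.length (q, u) β p →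
        (v = 0 → ∀ s : List M.Γ, ∃ (u' : Bool) (q' : M.Q) (p' : Fin M.k → ℕ) (s' : List M.Γ), M.acc q' ∧
          TRunF M w m (u, q, p, β ++ s) (u', q', p', s')) ∧
        (v ≠ 0 → ∃ (u' : Bool) (q' : M.Q) (p' : Fin M.k → ℕ),
          v = qn (q', u') * (w.length + 2) ^ M.k + pcd w.length p' + 1 ∧ (∀ j, p' j ≤ w.length + 1) ∧
          ∀ s : List M.Γ, TRunF M w m (u, q, p, β ++ s) (u', q', p', s))

/-- MODULE RK (hypotheses StG3, StW).  Derivations without turns have rank 2.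
Proof.  If Ev .. x r 0 n then wtT x = 0, so by StW (5) x = ac (lf = 1: `EvR.leaf`) or x = mnd (q, u) β p.  In a derivation of measure 0 all weights and both
measures of the premises are 0.  Claims, each by induction on the derivation (or on its size n), for x = mnd (q, u) β p, |β| ≤ K, p ≤ |w| + 1, Ev .. x r 0 n; kinds
of the nodes by StG3 for `aug M` (accepting: lf = 1; []: lf = .. + 2; [Z] with a move: lf = 0, cl = ac (its only value is 0), rs x 0 = node of ((q', fl γ u), γ, nps w d p),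
weight tu γ u; [Z] without move: cl x = x, no derivation; Z :: Y :: β: lf = 0, cl = node of ((q, u), [Z], p), rs x 0 = ac, rs x (value (q', u'), p') = node of ((q', u'), Y :: β, p')).
(A) if r ≠ 0 and β ≠ [] then u = false and r = qn (q', false) (n+2)^k + pcd p' + 1 for some q', p' ≤ |w| + 1.  [Z]: tu γ u = 0; γ = []: u ≠ true, and the next node is the empty
word with flag fl [] u = false: value qn (q', false) ..; |γ| = 1: fl γ u = u, induction; |γ| ≥ 2: fl γ u = true and γ ≠ [], against the induction hypothesis.  Z :: Y :: β: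
value r1 of [Z]: r1 = 0 would give r = 0 (value of ac), so r1 ≠ 0 and by induction u = false and r1 = value (q1, false), then induction for the node ((q1, false), Y :: β).
(B) if u = true or |β| ≤ 1 then EvR .. 0 x r c for some c ≤ 1.  Leaves: c = 0.  [Z]: the next node has flag true or a word of length ≤ 1 (|γ| ≥ 2 gives fl γ u = true), so by induction c2 ≤ 1;
c1 = 0 (ac): max 1 (0 + c2) = 1.  Z :: Y :: β: u = true, so r1 = 0 by (A), rs x 0 = ac: c2 = 0, and c1 ≤ 1 by induction for the node of [Z].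
(C) EvR .. 1 x r c for some c ≤ 1.  If u = true or |β| ≤ 1: (B) and `EvR.up`, c = 0.  Otherwise β = Z :: Y :: β', not accepting (else a leaf): the node of [Z]: (B) and up: c1 = 0;
r1 = 0: c2 = 0 (leaf ac); r1 ≠ 0: r1 is the value of some (q1, u1), p1 by (A), and c2 ≤ 1 by induction for ((q1, u1), Y :: β').  max 1 (0 + c2) = 1.
Finally `EvR.up`: EvR .. 2 x r 0. -/
def StRK : Prop :=
  ∀ {α : Type} [Fintype α] (M : MPDA α) (T : MTab) (K : ℕ) (num : M.Q × Bool → List M.Γ → ℕ) (qn : M.Q × Bool → ℕ),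
    MDesc (aug M) T K num qn →
    ∀ (w : List α) (x r n : ℕ), Ev (T.lf w) (T.cl w) (T.rs w) (wtT M T K num w) x r 0 n →
      EvR (T.lf w) (T.cl w) (T.rs w) 2 x r 0

/-- MODULE G7 (hypotheses StABS, StG1, StG2, StG3, StG5 (of DC), StG6, StW, StG4 (of PT), StRK).  The theorem.
Proof.  As G7 of DC (template Helper92/DC/M_G7.lean) for the automaton `aug M`, whose tables come from StG2 for `aug M`.  StABS with cl, rs, lf of the tables,
wt w := wtT M T K num w, c0 w := num (q0, false) [z0] * (n+2)^k (the node of ((q0, false), [z0], all heads on 0)), c := c.  Conditions: E2 and bounds from StG1; measure 0 has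
rank 2: StRK.  Lemmas: (1) M.Run w l a b gives (aug M).Run w l with the flags, for every start flag; conversely TRun, TRunF give M.Run.  (2) a derivation Ev with
weights wt gives one with weights wt' (same x, r, n).  (3) TRunF m a b, b accepting, TRun t a b', b' accepting imply m ≤ t (induction on TRunF; the moves are deterministic, and
a configuration before the last is not accepting, so TRun is not `refl`).  w ∈ M.lang: an accepting run of M, so one of aug M of l moves, StG5 for aug M gives Ev with weights 1 and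
value 0, (2).  Ev of c0 with value 0: StG4 (s = []) gives TRunF and an accepting run of M.  Measure: Ev .. c0 0 m n gives TRunF with exactly m turns (StG4), w ∈ M.lang, the
hypothesis gives TRun with at most c (log n)^c + c turns, so m ≤ c (log n)^c + c by (3). -/
def StG7 : Prop :=
  ∀ {α : Type} [Fintype α] (M : MPDA α) (c : ℕ), (∀ w ∈ M.lang, AccTurns M w (c * Nat.log 2 w.length ^ c + c)) →
    M.lang ∈ DSPACE (α := α) (fun n => Nat.log 2 n)

end Pool.Agent.Helper83.PT
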